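import Mathlib

set_option autoImplicit false

open Finset

namespace Pool.Agent.Work.MP_8329b3_an

/-- A finite directed multigraph with vertex set `Fin N`, every vertex `x` having `d` labelled out-edges
`(x,i)` with target `ω (x,i)`; `D` is the truncation level of the graph metric. -/
structure GData where
  D : ℕ
  d : ℕ
  N : ℕ
  ω : Fin N × Fin d → Fin N

/-- The pseudo-randomness properties needed. -/
structure GData.Good (G : GData) : Prop where
  hD : 1 ≤ G.D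
  hN : 0 < G.N
  hd : 64 ≤ G.d
  cross : ∀ A B : Finset (Fin G.N), (∀ e : Fin G.N × Fin G.d, e.1 ∈ A → G.ω e ∉ B) →
    G.d * A.card * B.card ≤ 2 * G.N ^ 2
  exp : ∀ A C : Finset (Fin G.N), A ⊆ C → 2 * C.card ≤ G.N →
    (∀ e : Fin G.N × Fin G.d, e.1 ∈ A → G.ω e ∈ C) → G.d * A.card ≤ 8 * C.card
  sparse : ∀ k, 1 ≤ k → k ≤ G.D → ∀ U : Finset (Fin G.N), G.d ^ (4 * k) * U.card ≤ G.N →
    ∀ F : Finset (Fin G.N × Fin G.d), (∀ e ∈ F, e.1 ∈ U ∧ G.ω e ∈ U) → k * F.card ≤ (k + 1) * U.card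
  edge : ∀ S : Finset (Fin G.N), 2 * S.card ≤ G.N →
    G.d * S.card ≤ 8 * (univ.filter (fun e : Fin G.N × Fin G.d => e.1 ∈ S ∧ G.ω e ∉ S)).card
  indeg : ∀ y, (univ.filter (fun e : Fin G.N × Fin G.d => G.ω e = y)).card ≤ 3 * G.d
  size : 2 * (4 * G.d + 1) ^ G.D ≤ G.N

end Pool.Agent.Work.MP_8329b3_an
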