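import Mathlib
import Pool.Agent.Work.MP_8329b3_an.Defs

set_option autoImplicit false

open Finset

namespace Pool.Agent.Work.MP_8329b3_an

/-- indicator of a proposition -/
noncomputable def ind (p : Prop) : ℝ := @ite _ p (Classical.propDecidable p) 1 0

theorem ind_true {p : Prop} (h : p) : ind p = 1 := by unfold ind; rw [if_pos h]
theorem ind_false {p : Prop} (h : ¬ p) : ind p = 0 := by unfold ind; rw [if_neg h]
theorem ind_nonneg (p : Prop) : 0 ≤ ind p := by
  by_cases h : p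
  · rw [ind_true h]; norm_num
  · rw [ind_false h]
theorem ind_le_one (p : Prop) : ind p ≤ 1 := by
  by_cases h : p
  · rw [ind_true h]
  · rw [ind_false h]; norm_num

/-- sample space -/
abbrev Om (N d : ℕ) : Type := Fin N × Fin d → Fin N

/-- expectation -/
noncomputable def EX (N d : ℕ) (X : Om N d → ℝ) : ℝ := (∑ ω, X ω) / (N:ℝ) ^ (N * d)

theorem card_Om (N d : ℕ) : Fintype.card (Om N d) = N ^ (N * d) := by
  simp [Om]

section
variable {N d : ℕ}

theorem EX_finset_sum {ι : Type} (s : Finset ι) (X : ι → Om N d → ℝ) :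
    EX N d (fun ω => ∑ i ∈ s, X i ω) = ∑ i ∈ s, EX N d (X i) := by
  unfold EX
  rw [Finset.sum_comm, Finset.sum_div]

theorem EX_add (X Y : Om N d → ℝ) : EX N d (fun ω => X ω + Y ω) = EX N d X + EX N d Y := by
  unfold EX
  rw [Finset.sum_add_distrib, add_div]

theorem EX_const_mul (c : ℝ) (X : Om N d → ℝ) : EX N d (fun ω => c * X ω) = c * EX N d X := by
  unfold EX
  rw [← Finset.mul_sum, mul_div_assoc]

theorem EX_mono {X Y : Om N d → ℝ} (h : ∀ ω, X ω ≤ Y ω) : EX N d X ≤ EX N d Y := by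
  unfold EX
  apply div_le_div_of_nonneg_right (Finset.sum_le_sum (fun ω _ => h ω)) (by positivity)

theorem exists_of_EX_lt (hN : 0 < N) {X : Om N d → ℝ} (h : EX N d X < 1) : ∃ ω, X ω < 1 := by
  by_contra hcon
  push Not at hcon
  have h1 : (Fintype.card (Om N d) : ℝ) ≤ ∑ ω, X ω := by
    calc (Fintype.card (Om N d) : ℝ) = ∑ _ω : Om N d, (1:ℝ) := by simp
      _ ≤ _ := Finset.sum_le_sum (fun ω _ => hcon ω)
  rw [card_Om] at h1
  push_cast at h1
  have hpos : (0:ℝ) < (N:ℝ) ^ (N * d) := by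
    have : (0:ℝ) < N := by exact_mod_cast hN
    positivity
  unfold EX at h
  rw [div_lt_one hpos] at h
  linarith

theorem EX_prod (hN : 0 < N) (F : Finset (Fin N × Fin d)) (g : Fin N → ℝ) :
    EX N d (fun ω => ∏ e ∈ F, g (ω e)) = ((∑ y, g y) / N) ^ F.card := by
  classical
  have hN' : (0:ℝ) < N := by exact_mod_cast hN
  unfold EX
  have h1 : ∀ ω : Om N d, ∏ e ∈ F, g (ω e) = ∏ e, (if e ∈ F then g (ω e) else 1) := by
    intro ω
    rw [Finset.prod_ite_mem, Finset.univ_inter]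
  simp only [h1]
  have h2 := (Finset.prod_univ_sum (fun _ : Fin N × Fin d => (univ : Finset (Fin N)))
    (fun e y => if e ∈ F then g y else 1)).symm
  rw [Fintype.piFinset_univ] at h2
  rw [h2]
  have h3 : ∀ e : Fin N × Fin d, ∑ y, (if e ∈ F then g y else 1) =
      if e ∈ F then ∑ y, g y else (N:ℝ) := by
    intro e
    split_ifs <;> simp
  simp only [h3]
  rw [Finset.prod_ite, Finset.prod_const, Finset.prod_const]
  have h4 : (univ.filter (fun e => e ∈ F)).card = F.card := by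
    rw [Finset.filter_mem_eq_inter, Finset.univ_inter]
  have h5 : (univ.filter (fun e => e ∉ F)).card = N * d - F.card := by
    have : (univ.filter (fun e => e ∉ F)) = Fᶜ := by ext e; simp
    rw [this, Finset.card_compl]
    simp
  have h6 : F.card ≤ N * d := by
    have := Finset.card_le_univ F
    simpa using this
  rw [h4, h5, div_pow]
  rw [div_eq_div_iff (by positivity) (by positivity)]
  have h7 : (N:ℝ) ^ (N * d) = (N:ℝ) ^ (N * d - F.card) * (N:ℝ) ^ F.card := by
    rw [← pow_add]; congr 1; omega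
  rw [h7]; ring

/-- probability that all edges of `F` end in `T` -/
theorem EX_conf (hN : 0 < N) (F : Finset (Fin N × Fin d)) (T : Finset (Fin N)) :
    EX N d (fun ω => ind (∀ e ∈ F, ω e ∈ T)) = ((T.card:ℝ) / N) ^ F.card := by
  have h := EX_prod hN F (fun y => if y ∈ T then (1:ℝ) else 0)
  rw [Finset.sum_ite_mem, Finset.univ_inter, Finset.sum_const, nsmul_eq_mul, mul_one] at h
  rw [← h]
  congr 1
  ext ω
  rw [Finset.prod_boole]
  by_cases h : ∀ e ∈ F, ω e ∈ T
  · rw [ind_true h, if_pos h]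
  · rw [ind_false h, if_neg h]

end

theorem choose_mul_pow_le (N c : ℕ) (hN : 0 < N) :
    (N.choose c : ℝ) * ((c:ℝ) / N) ^ c ≤ Real.exp c := by
  have hN' : (0:ℝ) < N := by exact_mod_cast hN
  have h1 : (N.choose c : ℝ) ≤ (N:ℝ) ^ c / (c.factorial : ℝ) := Nat.choose_le_pow_div c N
  calc (N.choose c : ℝ) * ((c:ℝ) / N) ^ c ≤ (N:ℝ) ^ c / (c.factorial : ℝ) * ((c:ℝ) / N) ^ c := by
        gcongr
    _ = (c:ℝ) ^ c / (c.factorial : ℝ) := by
        rw [div_pow]; field_simp
    _ ≤ Real.exp c := Real.pow_div_factorial_le_exp _ (by positivity) _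

/-! ### Class 1: cross -/

theorem class1 (N d : ℕ) (hN : 5 ≤ N) :
    EX N d (fun ω => ∑ A : Finset (Fin N), ∑ B : Finset (Fin N),
      ind (2 * N ^ 2 < d * A.card * B.card) * ind (∀ e ∈ A ×ˢ (univ : Finset (Fin d)), ω e ∈ Bᶜ)) ≤ 1 / 10 := by
  classical
  have hN0 : 0 < N := by omega
  have hN' : (0:ℝ) < N := by exact_mod_cast hN0
  have hterm : ∀ A B : Finset (Fin N), EX N d (fun ω =>
      ind (2 * N ^ 2 < d * A.card * B.card) * ind (∀ e ∈ A ×ˢ (univ : Finset (Fin d)), ω e ∈ Bᶜ))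
      ≤ Real.exp (-(2 * N)) := by
    intro A B
    rw [EX_const_mul, EX_conf hN0]
    by_cases h : 2 * N ^ 2 < d * A.card * B.card
    · rw [ind_true h, one_mul]
      have hB : B.card ≤ N := by
        have := Finset.card_le_univ B; simpa using this
      rw [Finset.card_compl, Fintype.card_fin, Nat.cast_sub hB, Finset.card_product, card_univ,
        Fintype.card_fin]
      have h1 : ((N:ℝ) - B.card) / N = 1 - B.card / N := by field_simp
      rw [h1]
      have h2 : (1 - (B.card:ℝ) / N) ≤ Real.exp (-(B.card / N)) := by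
        have := Real.add_one_le_exp (-((B.card:ℝ) / N))
        linarith
      have h3 : 0 ≤ 1 - (B.card:ℝ) / N := by
        rw [sub_nonneg, div_le_one hN']; exact_mod_cast hB
      calc (1 - (B.card:ℝ) / N) ^ (A.card * d) ≤ (Real.exp (-(B.card / N))) ^ (A.card * d) :=
            pow_le_pow_left₀ h3 h2 _
        _ = Real.exp (-((A.card * d : ℕ) * (B.card / N))) := by
            rw [← Real.exp_nat_mul]; congr 1; ring
        _ ≤ Real.exp (-(2 * N)) := by
            apply Real.exp_le_exp.2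
            apply neg_le_neg
            push_cast
            have h4 : (2:ℝ) * N ^ 2 < d * A.card * B.card := by exact_mod_cast h
            rw [← mul_div_assoc, le_div_iff₀ hN']
            nlinarith
    · rw [ind_false h, zero_mul]; exact (Real.exp_pos _).le
  rw [EX_finset_sum]
  have h1 : ∑ A : Finset (Fin N), EX N d (fun ω => ∑ B : Finset (Fin N),
      ind (2 * N ^ 2 < d * A.card * B.card) * ind (∀ e ∈ A ×ˢ (univ : Finset (Fin d)), ω e ∈ Bᶜ))
      ≤ ∑ A : Finset (Fin N), ∑ B : Finset (Fin N), Real.exp (-(2 * N)) := by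
    refine Finset.sum_le_sum (fun A _ => ?_)
    rw [EX_finset_sum]
    exact Finset.sum_le_sum (fun B _ => hterm A B)
  refine h1.trans ?_
  rw [Finset.sum_const, Finset.sum_const, card_univ, Fintype.card_finset, Fintype.card_fin,
    nsmul_eq_mul, nsmul_eq_mul]
  push_cast
  have h2 : (2:ℝ) ^ N * (2 ^ N * Real.exp (-(2 * N))) = (4 * Real.exp (-2)) ^ N := by
    have : Real.exp (-(2 * (N:ℝ))) = Real.exp (-2) ^ N := by
      rw [← Real.exp_nat_mul]; congr 1; ring
    rw [this, mul_pow, ← mul_assoc, ← mul_pow]; norm_num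
  rw [h2]
  have he : Real.exp (-2) ≤ 1 / 7 := by
    have h3 : (2.7182818283:ℝ) < Real.exp 1 := Real.exp_one_gt_d9
    have h4 : Real.exp 2 = Real.exp 1 * Real.exp 1 := by rw [← Real.exp_add]; norm_num
    rw [Real.exp_neg, one_div]
    apply inv_anti₀ (by norm_num)
    rw [h4]; nlinarith
  have h5 : 4 * Real.exp (-2) ≤ 4 / 7 := by linarith
  calc (4 * Real.exp (-2)) ^ N ≤ (4 / 7 : ℝ) ^ N := pow_le_pow_left₀ (by positivity) h5 _
    _ ≤ (4 / 7 : ℝ) ^ 5 := pow_le_pow_of_le_one (by norm_num) (by norm_num) hN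
    _ ≤ 1 / 10 := by norm_num

/-! ### Class 2: exp -/

theorem class2 (N d : ℕ) (hN0 : 0 < N) (hd : 64 ≤ d) :
    EX N d (fun ω => ∑ C : Finset (Fin N), ∑ A ∈ C.powerset,
      ind (2 * C.card ≤ N ∧ 8 * C.card < d * A.card) *
        ind (∀ e ∈ A ×ˢ (univ : Finset (Fin d)), ω e ∈ C)) ≤ 1 / 10 := by
  classical
  have hN' : (0:ℝ) < N := by exact_mod_cast hN0
  have hterm : ∀ C A : Finset (Fin N), EX N d (fun ω =>
      ind (2 * C.card ≤ N ∧ 8 * C.card < d * A.card) *
        ind (∀ e ∈ A ×ˢ (univ : Finset (Fin d)), ω e ∈ C))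
      ≤ (1/2:ℝ) ^ (3 * C.card + d / 2) * ((C.card:ℝ) / N) ^ C.card := by
    intro C A
    rw [EX_const_mul, EX_conf hN0]
    by_cases h : 2 * C.card ≤ N ∧ 8 * C.card < d * A.card
    · rw [ind_true h, one_mul, Finset.card_product, card_univ, Fintype.card_fin]
      have hA : 1 ≤ A.card := by
        by_contra h0
        have : A.card = 0 := by omega
        rw [this] at h; simp at h
      have hAd : d ≤ A.card * d := Nat.le_mul_of_pos_left d hA
      have h8 : 8 * C.card < A.card * d := by rw [mul_comm A.card d]; exact h.2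
      obtain ⟨m, hm⟩ : ∃ m, A.card * d = (3 * C.card + d / 2) + C.card + m := by
        refine ⟨A.card * d - ((3 * C.card + d / 2) + C.card), ?_⟩
        omega
      have hhalf : (C.card:ℝ) / N ≤ 1 / 2 := by
        rw [div_le_div_iff₀ hN' (by norm_num)]
        have : 2 * (C.card:ℝ) ≤ N := by exact_mod_cast h.1
        linarith
      have h0 : (0:ℝ) ≤ (C.card:ℝ) / N := by positivity
      rw [hm, pow_add, pow_add]
      calc ((C.card:ℝ) / N) ^ (3 * C.card + d / 2) * ((C.card:ℝ) / N) ^ C.card * ((C.card:ℝ) / N) ^ m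
          ≤ (1/2:ℝ) ^ (3 * C.card + d / 2) * ((C.card:ℝ) / N) ^ C.card * 1 := by
            apply mul_le_mul _ _ (by positivity) (by positivity)
            · apply mul_le_mul_of_nonneg_right _ (by positivity)
              exact pow_le_pow_left₀ h0 hhalf _
            · exact pow_le_one₀ h0 (by linarith)
        _ = _ := by ring
    · rw [ind_false h, zero_mul]; positivity
  rw [EX_finset_sum]
  have h1 : ∀ C : Finset (Fin N), EX N d (fun ω => ∑ A ∈ C.powerset,
      ind (2 * C.card ≤ N ∧ 8 * C.card < d * A.card) *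
        ind (∀ e ∈ A ×ˢ (univ : Finset (Fin d)), ω e ∈ C))
      ≤ (1/2:ℝ) ^ (d / 2) * ((1/4:ℝ) ^ C.card * ((C.card:ℝ) / N) ^ C.card) := by
    intro C
    rw [EX_finset_sum]
    refine (Finset.sum_le_sum (fun A _ => hterm C A)).trans ?_
    rw [Finset.sum_const, Finset.card_powerset, nsmul_eq_mul]
    push_cast
    apply le_of_eq
    have h2 : (2:ℝ) ^ C.card * (1/2:ℝ) ^ (3 * C.card + d / 2) = (1/2:ℝ) ^ (d / 2) * (1/4:ℝ) ^ C.card := by
      rw [pow_add, pow_mul, ← mul_assoc, ← mul_pow]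
      norm_num [mul_comm]
    rw [← mul_assoc, h2, mul_assoc]
  refine (Finset.sum_le_sum (fun C _ => h1 C)).trans ?_
  rw [← Finset.mul_sum]
  have h3 : ∑ C : Finset (Fin N), ((1/4:ℝ) ^ C.card * ((C.card:ℝ) / N) ^ C.card) ≤ 4 := by
    have h4 := Finset.sum_powerset_apply_card
      (fun c => (1/4:ℝ) ^ c * ((c:ℝ) / N) ^ c) (x := (univ : Finset (Fin N)))
    rw [Finset.powerset_univ] at h4
    rw [h4, card_univ, Fintype.card_fin]
    have h5 : ∀ c ∈ range (N+1), N.choose c • ((1/4:ℝ) ^ c * ((c:ℝ) / N) ^ c) ≤ (3/4:ℝ) ^ c := by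
      intro c _
      rw [nsmul_eq_mul]
      have h6 := choose_mul_pow_le N c hN0
      have h7 : Real.exp c ≤ 3 ^ c := by
        have : Real.exp c = Real.exp 1 ^ c := by rw [← Real.exp_nat_mul]; simp
        rw [this]
        exact pow_le_pow_left₀ (Real.exp_pos _).le (by linarith [Real.exp_one_lt_d9]) _
      calc (N.choose c : ℝ) * ((1/4:ℝ) ^ c * ((c:ℝ) / N) ^ c)
          = (1/4:ℝ) ^ c * ((N.choose c : ℝ) * ((c:ℝ) / N) ^ c) := by ring
        _ ≤ (1/4:ℝ) ^ c * 3 ^ c := by
            apply mul_le_mul_of_nonneg_left (h6.trans h7) (by positivity)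
        _ = (3/4:ℝ) ^ c := by rw [← mul_pow]; norm_num
    refine (Finset.sum_le_sum h5).trans ?_
    have h8 : ∑ c ∈ range (N+1), (3/4:ℝ) ^ c = (1 - (3/4:ℝ) ^ (N+1)) * 4 := by
      have := geom_sum_eq (show (3/4:ℝ) ≠ 1 by norm_num) (N+1)
      rw [this]
      have h9 : (3/4:ℝ) - 1 = -(1/4) := by norm_num
      rw [h9]
      field_simp
      ring
    rw [h8]
    have : (0:ℝ) ≤ (3/4:ℝ) ^ (N+1) := by positivity
    linarith
  have h10 : (1/2:ℝ) ^ (d / 2) ≤ 1 / 40 := by
    calc (1/2:ℝ) ^ (d / 2) ≤ (1/2:ℝ) ^ 6 := pow_le_pow_of_le_one (by norm_num) (by norm_num) (by omega)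
      _ ≤ 1 / 40 := by norm_num
  calc (1/2:ℝ) ^ (d / 2) * _ ≤ (1/40) * 4 := mul_le_mul h10 h3 (Finset.sum_nonneg (fun _ _ => by positivity)) (by norm_num)
    _ = 1 / 10 := by norm_num

end Pool.Agent.Work.MP_8329b3_an
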