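import Mathlib
import Pool.Agent.Work.MP_8329b3_an.Random

set_option autoImplicit false

open Finset

namespace Pool.Agent.Work.MP_8329b3_an

/-! ### Class 3: sparse -/

/-- minimal violating size -/
def phn (k u : ℕ) : ℕ := u + u / k + 1

theorem class3_term (N d k : ℕ) (hN0 : 0 < N) (hd : 64 ≤ d) (hk : 1 ≤ k) (U : Finset (Fin N)) :
    EX N d (fun ω => ∑ F ∈ (U ×ˢ (univ : Finset (Fin d))).powersetCard (phn k U.card),
      ind (d ^ (4 * k) * U.card ≤ N ∧ 1 ≤ U.card) * ind (∀ e ∈ F, ω e ∈ U)) ≤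
      (1 / (d:ℝ) ^ 3) * ((Real.exp 1 / d ^ 2) ^ U.card * ((U.card:ℝ) / N) ^ U.card) := by
  classical
  have hN' : (0:ℝ) < N := by exact_mod_cast hN0
  have hd' : (0:ℝ) < d := by
    have : 0 < d := by omega
    exact_mod_cast this
  have hd1 : (1:ℝ) ≤ d := by
    have : 1 ≤ d := by omega
    exact_mod_cast this
  set u := U.card with hu
  set φ := phn k u with hφ
  rw [EX_finset_sum]
  have h1 : ∀ F ∈ (U ×ˢ (univ : Finset (Fin d))).powersetCard φ, EX N d (fun ω =>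
      ind (d ^ (4 * k) * u ≤ N ∧ 1 ≤ u) * ind (∀ e ∈ F, ω e ∈ U)) =
      ind (d ^ (4 * k) * u ≤ N ∧ 1 ≤ u) * ((u:ℝ) / N) ^ φ := by
    intro F hF
    rw [EX_const_mul, EX_conf hN0, (Finset.mem_powersetCard.1 hF).2]
  rw [Finset.sum_congr rfl h1, Finset.sum_const, Finset.card_powersetCard, Finset.card_product,
    card_univ, Fintype.card_fin, nsmul_eq_mul]
  by_cases h : d ^ (4 * k) * u ≤ N ∧ 1 ≤ u
  · rw [ind_true h, one_mul]
    have hx0 : (0:ℝ) ≤ (u:ℝ) / N := by positivity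
    have hx : (u:ℝ) / N ≤ 1 / (d:ℝ) ^ (4 * k) := by
      rw [div_le_div_iff₀ hN' (by positivity)]
      have : (d:ℝ) ^ (4 * k) * u ≤ N := by exact_mod_cast h.1
      linarith
    -- choose bound
    have hch : (((u * d).choose φ : ℕ) : ℝ) ≤ (d:ℝ) ^ φ * Real.exp u := by
      have h2 : (((u * d).choose φ : ℕ) : ℝ) ≤ ((u * d : ℕ) : ℝ) ^ φ / (φ.factorial : ℝ) :=
        Nat.choose_le_pow_div φ (u * d)
      refine h2.trans ?_
      have h3 := Real.pow_div_factorial_le_exp (u:ℝ) (by positivity) φ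
      calc ((u * d : ℕ) : ℝ) ^ φ / (φ.factorial : ℝ) = (d:ℝ) ^ φ * ((u:ℝ) ^ φ / (φ.factorial : ℝ)) := by
            push_cast; rw [mul_pow]; ring
        _ ≤ _ := mul_le_mul_of_nonneg_left h3 (by positivity)
    have hφe : φ = u + (u / k + 1) := by rw [hφ, phn]; ring
    have hpow : ((u:ℝ) / N) ^ (u / k + 1) ≤ 1 / (d:ℝ) ^ (4 * (u + 1)) := by
      have h4 : u + 1 ≤ k * (u / k + 1) := by
        have := Nat.div_add_mod u k
        have := Nat.mod_lt u hk
        nlinarith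
      calc ((u:ℝ) / N) ^ (u / k + 1) ≤ (1 / (d:ℝ) ^ (4 * k)) ^ (u / k + 1) :=
            pow_le_pow_left₀ hx0 hx _
        _ = 1 / (d:ℝ) ^ (4 * k * (u / k + 1)) := by rw [div_pow, one_pow, ← pow_mul]
        _ ≤ 1 / (d:ℝ) ^ (4 * (u + 1)) := by
            apply one_div_le_one_div_of_le (by positivity)
            apply pow_le_pow_right₀ hd1
            nlinarith
    have hdφ : (d:ℝ) ^ φ ≤ (d:ℝ) ^ (2 * u + 1) := by
      apply pow_le_pow_right₀ hd1
      have := Nat.div_le_self u k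
      omega
    calc (((u * d).choose φ : ℕ) : ℝ) * ((u:ℝ) / N) ^ φ
        ≤ ((d:ℝ) ^ φ * Real.exp u) * ((u:ℝ) / N) ^ φ :=
          mul_le_mul_of_nonneg_right hch (by positivity)
      _ = (d:ℝ) ^ φ * Real.exp u * (((u:ℝ) / N) ^ u * ((u:ℝ) / N) ^ (u / k + 1)) := by
          rw [← pow_add, ← hφe]
      _ ≤ (d:ℝ) ^ (2 * u + 1) * Real.exp u * (((u:ℝ) / N) ^ u * (1 / (d:ℝ) ^ (4 * (u + 1)))) := by
          gcongr
      _ = _ := by
          have h5 : Real.exp (u:ℝ) = Real.exp 1 ^ u := by rw [← Real.exp_nat_mul]; simp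
          rw [h5]
          have h6 : (d:ℝ) ^ (4 * (u + 1)) = (d:ℝ) ^ (2 * u + 1) * ((d:ℝ) ^ 2) ^ u * d ^ 3 := by
            rw [← pow_mul, ← pow_add, ← pow_add]; congr 1; ring
          have h7 : (Real.exp 1 / (d:ℝ) ^ 2) ^ u = Real.exp 1 ^ u / ((d:ℝ) ^ 2) ^ u := div_pow _ _ _
          rw [h6, h7]
          field_simp
  · rw [ind_false h, zero_mul, mul_zero]; positivity

theorem class3 (N d D : ℕ) (hN0 : 0 < N) (hd : 64 ≤ d) (hDd : D ≤ d) :
    EX N d (fun ω => ∑ k ∈ Finset.Icc 1 D, ∑ U : Finset (Fin N),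
      ∑ F ∈ (U ×ˢ (univ : Finset (Fin d))).powersetCard (phn k U.card),
      ind (d ^ (4 * k) * U.card ≤ N ∧ 1 ≤ U.card) * ind (∀ e ∈ F, ω e ∈ U)) ≤ 1 / 10 := by
  classical
  have hN' : (0:ℝ) < N := by exact_mod_cast hN0
  have hd64 : (64:ℝ) ≤ d := by exact_mod_cast hd
  have hd' : (0:ℝ) < d := by linarith
  rw [EX_finset_sum]
  have h1 : ∀ k ∈ Finset.Icc 1 D, EX N d (fun ω => ∑ U : Finset (Fin N),
      ∑ F ∈ (U ×ˢ (univ : Finset (Fin d))).powersetCard (phn k U.card),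
      ind (d ^ (4 * k) * U.card ≤ N ∧ 1 ≤ U.card) * ind (∀ e ∈ F, ω e ∈ U)) ≤ (1 / (d:ℝ) ^ 3) * 2 := by
    intro k hk
    rw [EX_finset_sum]
    refine (Finset.sum_le_sum (fun U _ => class3_term N d k hN0 hd (Finset.mem_Icc.1 hk).1 U)).trans ?_
    rw [← Finset.mul_sum]
    apply mul_le_mul_of_nonneg_left _ (by positivity)
    have h4 := Finset.sum_powerset_apply_card
      (fun c => (Real.exp 1 / (d:ℝ) ^ 2) ^ c * ((c:ℝ) / N) ^ c) (x := (univ : Finset (Fin N)))
    rw [Finset.powerset_univ] at h4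
    rw [h4, card_univ, Fintype.card_fin]
    have h5 : ∀ c ∈ range (N+1), N.choose c • ((Real.exp 1 / (d:ℝ) ^ 2) ^ c * ((c:ℝ) / N) ^ c) ≤ (1/2:ℝ) ^ c := by
      intro c _
      rw [nsmul_eq_mul]
      have h6 := choose_mul_pow_le N c hN0
      have h7 : Real.exp c = Real.exp 1 ^ c := by rw [← Real.exp_nat_mul]; simp
      have he : Real.exp 1 ≤ 3 := by linarith [Real.exp_one_lt_d9]
      calc (N.choose c : ℝ) * ((Real.exp 1 / (d:ℝ) ^ 2) ^ c * ((c:ℝ) / N) ^ c)
          = (Real.exp 1 / (d:ℝ) ^ 2) ^ c * ((N.choose c : ℝ) * ((c:ℝ) / N) ^ c) := by ring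
        _ ≤ (Real.exp 1 / (d:ℝ) ^ 2) ^ c * Real.exp 1 ^ c := by
            apply mul_le_mul_of_nonneg_left (h6.trans h7.le) (by positivity)
        _ = (Real.exp 1 * Real.exp 1 / (d:ℝ) ^ 2) ^ c := by rw [← mul_pow]; congr 1; ring
        _ ≤ (1/2:ℝ) ^ c := by
            apply pow_le_pow_left₀ (by positivity)
            rw [div_le_div_iff₀ (by positivity) (by norm_num)]
            have := Real.exp_pos 1
            nlinarith
    refine (Finset.sum_le_sum h5).trans ?_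
    have h8 : ∑ c ∈ range (N+1), (1/2:ℝ) ^ c = (1 - (1/2:ℝ) ^ (N+1)) * 2 := by
      have := geom_sum_eq (show (1/2:ℝ) ≠ 1 by norm_num) (N+1)
      rw [this]
      have h9 : (1/2:ℝ) - 1 = -(1/2) := by norm_num
      rw [h9]
      field_simp
      ring
    rw [h8]
    have : (0:ℝ) ≤ (1/2:ℝ) ^ (N+1) := by positivity
    linarith
  refine (Finset.sum_le_sum h1).trans ?_
  rw [Finset.sum_const, Nat.card_Icc, nsmul_eq_mul]
  have hD' : ((D + 1 - 1 : ℕ) : ℝ) ≤ d := by
    have : D + 1 - 1 ≤ d := by omega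
    exact_mod_cast this
  calc ((D + 1 - 1 : ℕ) : ℝ) * (1 / (d:ℝ) ^ 3 * 2) ≤ d * (1 / (d:ℝ) ^ 3 * 2) := by
        apply mul_le_mul_of_nonneg_right hD' (by positivity)
    _ = 2 / (d:ℝ) ^ 2 := by field_simp
    _ ≤ 1 / 10 := by
        rw [div_le_div_iff₀ (by positivity) (by norm_num)]
        nlinarith

/-! ### Class 4: edge expansion -/

theorem class4_term (N d : ℕ) (hN0 : 0 < N) (S : Finset (Fin N)) :
    EX N d (fun ω => ind (S.Nonempty ∧ 2 * S.card ≤ N) *
      ind (8 * (univ.filter (fun e : Fin N × Fin d => e.1 ∈ S ∧ ω e ∉ S)).card < d * S.card)) ≤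
      (((4/5:ℝ) ^ d) ^ S.card) - (if S = ∅ then 1 else 0) := by
  classical
  have hN' : (0:ℝ) < N := by exact_mod_cast hN0
  rw [EX_const_mul]
  by_cases h : S.Nonempty ∧ 2 * S.card ≤ N
  · rw [ind_true h, one_mul, if_neg h.1.ne_empty, sub_zero]
    have h1 : ∀ ω : Om N d, ind (8 * (univ.filter (fun e : Fin N × Fin d => e.1 ∈ S ∧ ω e ∉ S)).card
        < d * S.card) ≤ (3/2:ℝ) ^ (d * S.card) *
        ∏ e ∈ S ×ˢ (univ : Finset (Fin d)), (if ω e ∈ S then (1:ℝ) else (2/3) ^ 8) := by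
      intro ω
      have h2 : ∏ e ∈ S ×ˢ (univ : Finset (Fin d)), (if ω e ∈ S then (1:ℝ) else (2/3) ^ 8) =
          ((2/3:ℝ) ^ 8) ^ (univ.filter (fun e : Fin N × Fin d => e.1 ∈ S ∧ ω e ∉ S)).card := by
        rw [Finset.prod_ite, Finset.prod_const_one, one_mul, Finset.prod_const]
        congr 2
        ext e
        simp [Finset.mem_product]
      rw [h2]
      by_cases h3 : 8 * (univ.filter (fun e : Fin N × Fin d => e.1 ∈ S ∧ ω e ∉ S)).card < d * S.card
      · rw [ind_true h3, ← pow_mul]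
        obtain ⟨m, hm⟩ : ∃ m, d * S.card = 8 * (univ.filter (fun e : Fin N × Fin d => e.1 ∈ S ∧ ω e ∉ S)).card + m :=
          ⟨_, (Nat.add_sub_cancel' h3.le).symm⟩
        rw [hm, pow_add]
        have h4 : (3/2:ℝ) ^ (8 * (univ.filter (fun e : Fin N × Fin d => e.1 ∈ S ∧ ω e ∉ S)).card) *
            (2/3:ℝ) ^ (8 * (univ.filter (fun e : Fin N × Fin d => e.1 ∈ S ∧ ω e ∉ S)).card) = 1 := by
          rw [← mul_pow]; norm_num
        have h5 : (1:ℝ) ≤ (3/2:ℝ) ^ m := one_le_pow₀ (by norm_num)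
        calc (1:ℝ) ≤ (3/2:ℝ) ^ m := h5
          _ = (3/2:ℝ) ^ m * ((3/2:ℝ) ^ (8 * (univ.filter (fun e : Fin N × Fin d => e.1 ∈ S ∧ ω e ∉ S)).card) *
            (2/3:ℝ) ^ (8 * (univ.filter (fun e : Fin N × Fin d => e.1 ∈ S ∧ ω e ∉ S)).card)) := by
              rw [h4, mul_one]
          _ = _ := by ring
      · rw [ind_false h3]; positivity
    refine (EX_mono h1).trans ?_
    rw [EX_const_mul, EX_prod hN0 _ (fun y => if y ∈ S then (1:ℝ) else (2/3) ^ 8), Finset.card_product,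
      card_univ, Fintype.card_fin]
    have h6 : ∑ y : Fin N, (if y ∈ S then (1:ℝ) else (2/3) ^ 8) = S.card + (N - S.card) * (2/3) ^ 8 := by
      have : ∀ y : Fin N, (if y ∈ S then (1:ℝ) else (2/3) ^ 8) =
          (2/3) ^ 8 + (if y ∈ S then (1 - (2/3:ℝ) ^ 8) else 0) := by
        intro y; split_ifs <;> ring
      simp only [this]
      rw [Finset.sum_add_distrib, Finset.sum_ite_mem, Finset.univ_inter]
      simp only [Finset.sum_const, card_univ, Fintype.card_fin, nsmul_eq_mul]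
      ring
    rw [h6]
    have hS : 2 * (S.card : ℝ) ≤ N := by exact_mod_cast h.2
    have hS0 : (0:ℝ) ≤ S.card := by positivity
    have h7 : ((S.card:ℝ) + (N - S.card) * (2/3) ^ 8) / N ≤ 8 / 15 := by
      rw [div_le_div_iff₀ hN' (by norm_num)]
      nlinarith
    have h8 : (0:ℝ) ≤ ((S.card:ℝ) + (N - S.card) * (2/3) ^ 8) / N := by
      apply div_nonneg _ hN'.le
      have : (0:ℝ) ≤ N - S.card := by linarith
      positivity
    calc (3/2:ℝ) ^ (d * S.card) * (((S.card:ℝ) + (N - S.card) * (2/3) ^ 8) / N) ^ (S.card * d)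
        ≤ (3/2:ℝ) ^ (d * S.card) * (8 / 15 : ℝ) ^ (S.card * d) := by
          apply mul_le_mul_of_nonneg_left _ (by positivity)
          exact pow_le_pow_left₀ h8 h7 _
      _ = ((4/5:ℝ) ^ d) ^ S.card := by
          rw [mul_comm S.card d, ← mul_pow, ← pow_mul]; norm_num
  · rw [ind_false h, zero_mul]
    split_ifs with h1
    · rw [h1]; simp
    · rw [sub_zero]; positivity

theorem class4 (N d : ℕ) (hN0 : 0 < N) (hsmall : (N:ℝ) * (4/5) ^ d ≤ 1 / 20) :
    EX N d (fun ω => ∑ S : Finset (Fin N), ind (S.Nonempty ∧ 2 * S.card ≤ N) *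
      ind (8 * (univ.filter (fun e : Fin N × Fin d => e.1 ∈ S ∧ ω e ∉ S)).card < d * S.card)) ≤
      1 / 10 := by
  classical
  rw [EX_finset_sum]
  refine (Finset.sum_le_sum (fun S _ => class4_term N d hN0 S)).trans ?_
  rw [Finset.sum_sub_distrib]
  set x : ℝ := (4/5:ℝ) ^ d with hx
  have hx0 : 0 ≤ x := by positivity
  have h1 : ∑ S : Finset (Fin N), x ^ S.card = (x + 1) ^ N := by
    have := Fintype.sum_pow_mul_eq_add_pow (Fin N) x 1
    simpa using this
  have h2 : ∑ S : Finset (Fin N), (if S = ∅ then (1:ℝ) else 0) = 1 := by simp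
  rw [h1, h2]
  have h3 : (x + 1) ^ N ≤ Real.exp (N * x) := by
    rw [Real.exp_nat_mul]
    exact pow_le_pow_left₀ (by linarith) (Real.add_one_le_exp x) _
  have h4 : Real.exp (N * x) ≤ 20 / 19 := by
    have h5 : Real.exp (N * x) ≤ Real.exp (1/20) := Real.exp_le_exp.2 hsmall
    have h6 : (1:ℝ) - 1/20 ≤ Real.exp (-(1/20)) := by
      have := Real.add_one_le_exp (-(1/20:ℝ))
      linarith
    have h7 : Real.exp (1/20) * Real.exp (-(1/20)) = 1 := by rw [← Real.exp_add]; simp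
    have h8 := Real.exp_pos (1/20:ℝ)
    nlinarith
  linarith

/-! ### Class 5: in-degrees -/

theorem class5 (N d : ℕ) (hN0 : 0 < N) (hsmall : (N:ℝ) * (4/5) ^ d ≤ 1 / 20) :
    EX N d (fun ω => ∑ y : Fin N,
      ind (3 * d < (univ.filter (fun e : Fin N × Fin d => ω e = y)).card)) ≤ 1 / 20 := by
  classical
  have hN' : (0:ℝ) < N := by exact_mod_cast hN0
  rw [EX_finset_sum]
  have h1 : ∀ y : Fin N, EX N d (fun ω =>
      ind (3 * d < (univ.filter (fun e : Fin N × Fin d => ω e = y)).card)) ≤ (1/2:ℝ) ^ d := by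
    intro y
    have h2 : ∀ ω : Om N d, ind (3 * d < (univ.filter (fun e : Fin N × Fin d => ω e = y)).card) ≤
        (1/2:ℝ) ^ (3 * d) * ∏ e ∈ (univ : Finset (Fin N × Fin d)), (if ω e = y then (2:ℝ) else 1) := by
      intro ω
      rw [Finset.prod_ite, Finset.prod_const_one, mul_one, Finset.prod_const]
      by_cases h3 : 3 * d < (univ.filter (fun e : Fin N × Fin d => ω e = y)).card
      · rw [ind_true h3]
        obtain ⟨m, hm⟩ : ∃ m, (univ.filter (fun e : Fin N × Fin d => ω e = y)).card = 3 * d + m :=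
          ⟨_, (Nat.add_sub_cancel' h3.le).symm⟩
        rw [hm, pow_add, ← mul_assoc, ← mul_pow]
        have : (1:ℝ) ≤ 2 ^ m := one_le_pow₀ (by norm_num)
        norm_num
        exact this
      · rw [ind_false h3]; positivity
    refine (EX_mono h2).trans ?_
    rw [EX_const_mul, EX_prod hN0 _ (fun z => if z = y then (2:ℝ) else 1)]
    have h4 : ∑ z : Fin N, (if z = y then (2:ℝ) else 1) = N + 1 := by
      have : ∀ z : Fin N, (if z = y then (2:ℝ) else 1) = 1 + (if z = y then (1:ℝ) else 0) := by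
        intro z; split_ifs <;> norm_num
      simp only [this]
      rw [Finset.sum_add_distrib]
      simp
    rw [h4]
    have h5 : (univ : Finset (Fin N × Fin d)).card = N * d := by simp
    rw [h5, pow_mul (((N:ℝ) + 1) / N)]
    have h6 : (((N:ℝ) + 1) / N) ^ N ≤ 4 := by
      have h7 : ((N:ℝ) + 1) / N ≤ Real.exp (1 / N) := by
        have := Real.add_one_le_exp (1 / (N:ℝ))
        have h8 : ((N:ℝ) + 1) / N = 1 / N + 1 := by field_simp; ring
        rw [h8]; exact this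
      calc (((N:ℝ) + 1) / N) ^ N ≤ (Real.exp (1 / N)) ^ N := pow_le_pow_left₀ (by positivity) h7 _
        _ = Real.exp 1 := by
            rw [← Real.exp_nat_mul]; congr 1; field_simp
        _ ≤ 4 := by linarith [Real.exp_one_lt_d9]
    calc (1/2:ℝ) ^ (3 * d) * ((((N:ℝ) + 1) / N) ^ N) ^ d ≤ (1/2:ℝ) ^ (3 * d) * 4 ^ d := by
          apply mul_le_mul_of_nonneg_left _ (by positivity)
          exact pow_le_pow_left₀ (by positivity) h6 _
      _ = (1/2:ℝ) ^ d := by
          rw [pow_mul, ← mul_pow]; norm_num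
  refine (Finset.sum_le_sum (fun y _ => h1 y)).trans ?_
  rw [Finset.sum_const, card_univ, Fintype.card_fin, nsmul_eq_mul]
  refine le_trans ?_ hsmall
  apply mul_le_mul_of_nonneg_left _ hN'.le
  exact pow_le_pow_left₀ (by norm_num) (by norm_num) _

end Pool.Agent.Work.MP_8329b3_an
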