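import Mathlib
import Pool.Agent.Work.MP_8329b3_an.Random2

set_option autoImplicit false

open Finset

namespace Pool.Agent.Work.MP_8329b3_an

theorem exists_good (D d N : ℕ) (hD : 1 ≤ D) (hDd : D ≤ d) (hd : 64 ≤ d)
    (hsize : 2 * (4 * d + 1) ^ D ≤ N) (hsmall : (N:ℝ) * (4/5) ^ d ≤ 1 / 20) :
    ∃ ω : Fin N × Fin d → Fin N, (GData.mk D d N ω).Good := by
  classical
  have hN5 : 5 ≤ N := by
    have h1 : 4 * d + 1 ≤ (4 * d + 1) ^ D := Nat.le_self_pow (by omega) _
    omega
  have hN0 : 0 < N := by omega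
  let X1 : Om N d → ℝ := fun ω => ∑ A : Finset (Fin N), ∑ B : Finset (Fin N),
      ind (2 * N ^ 2 < d * A.card * B.card) * ind (∀ e ∈ A ×ˢ (univ : Finset (Fin d)), ω e ∈ Bᶜ)
  let X2 : Om N d → ℝ := fun ω => ∑ C : Finset (Fin N), ∑ A ∈ C.powerset,
      ind (2 * C.card ≤ N ∧ 8 * C.card < d * A.card) *
        ind (∀ e ∈ A ×ˢ (univ : Finset (Fin d)), ω e ∈ C)
  let X3 : Om N d → ℝ := fun ω => ∑ k ∈ Finset.Icc 1 D, ∑ U : Finset (Fin N),
      ∑ F ∈ (U ×ˢ (univ : Finset (Fin d))).powersetCard (phn k U.card),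
      ind (d ^ (4 * k) * U.card ≤ N ∧ 1 ≤ U.card) * ind (∀ e ∈ F, ω e ∈ U)
  let X4 : Om N d → ℝ := fun ω => ∑ S : Finset (Fin N), ind (S.Nonempty ∧ 2 * S.card ≤ N) *
      ind (8 * (univ.filter (fun e : Fin N × Fin d => e.1 ∈ S ∧ ω e ∉ S)).card < d * S.card)
  let X5 : Om N d → ℝ := fun ω => ∑ y : Fin N,
      ind (3 * d < (univ.filter (fun e : Fin N × Fin d => ω e = y)).card)
  have hE : EX N d (fun ω => X1 ω + (X2 ω + (X3 ω + (X4 ω + X5 ω)))) < 1 := by
    rw [EX_add X1, EX_add X2, EX_add X3, EX_add X4]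
    have h1 : EX N d X1 ≤ 1 / 10 := class1 N d hN5
    have h2 : EX N d X2 ≤ 1 / 10 := class2 N d hN0 hd
    have h3 : EX N d X3 ≤ 1 / 10 := class3 N d D hN0 hd hDd
    have h4 : EX N d X4 ≤ 1 / 10 := class4 N d hN0 hsmall
    have h5 : EX N d X5 ≤ 1 / 20 := class5 N d hN0 hsmall
    linarith
  obtain ⟨ω, hω⟩ := exists_of_EX_lt hN0 hE
  have p1 : 0 ≤ X1 ω := Finset.sum_nonneg (fun _ _ => Finset.sum_nonneg (fun _ _ =>
    mul_nonneg (ind_nonneg _) (ind_nonneg _)))
  have p2 : 0 ≤ X2 ω := Finset.sum_nonneg (fun _ _ => Finset.sum_nonneg (fun _ _ =>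
    mul_nonneg (ind_nonneg _) (ind_nonneg _)))
  have p3 : 0 ≤ X3 ω := Finset.sum_nonneg (fun _ _ => Finset.sum_nonneg (fun _ _ =>
    Finset.sum_nonneg (fun _ _ => mul_nonneg (ind_nonneg _) (ind_nonneg _))))
  have p4 : 0 ≤ X4 ω := Finset.sum_nonneg (fun _ _ => mul_nonneg (ind_nonneg _) (ind_nonneg _))
  have p5 : 0 ≤ X5 ω := Finset.sum_nonneg (fun _ _ => ind_nonneg _)
  have q1 : X1 ω < 1 := by linarith
  have q2 : X2 ω < 1 := by linarith
  have q3 : X3 ω < 1 := by linarith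
  have q4 : X4 ω < 1 := by linarith
  have q5 : X5 ω < 1 := by linarith
  refine ⟨ω, ?_⟩
  refine { hD := hD, hN := hN0, hd := hd, cross := ?_, exp := ?_, sparse := ?_, edge := ?_,
           indeg := ?_, size := hsize }
  · intro A B hAB
    by_contra hcon
    push Not at hcon
    have h1 : ind (2 * N ^ 2 < d * A.card * B.card) *
        ind (∀ e ∈ A ×ˢ (univ : Finset (Fin d)), ω e ∈ Bᶜ) = 1 := by
      rw [ind_true hcon, ind_true, one_mul]
      intro e he
      rw [Finset.mem_compl]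
      exact hAB e (Finset.mem_product.1 he).1
    have h2 : ind (2 * N ^ 2 < d * A.card * B.card) *
        ind (∀ e ∈ A ×ˢ (univ : Finset (Fin d)), ω e ∈ Bᶜ) ≤ X1 ω := by
      refine le_trans ?_ (Finset.single_le_sum (f := fun A : Finset (Fin N) => ∑ B : Finset (Fin N),
        ind (2 * N ^ 2 < d * A.card * B.card) * ind (∀ e ∈ A ×ˢ (univ : Finset (Fin d)), ω e ∈ Bᶜ))
        (fun _ _ => Finset.sum_nonneg (fun _ _ => mul_nonneg (ind_nonneg _) (ind_nonneg _))) (mem_univ A))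
      exact Finset.single_le_sum (f := fun B : Finset (Fin N) =>
        ind (2 * N ^ 2 < d * A.card * B.card) * ind (∀ e ∈ A ×ˢ (univ : Finset (Fin d)), ω e ∈ Bᶜ))
        (fun _ _ => mul_nonneg (ind_nonneg _) (ind_nonneg _)) (mem_univ B)
    linarith
  · intro A C hAC hC hcl
    by_contra hcon
    push Not at hcon
    have h1 : ind (2 * C.card ≤ N ∧ 8 * C.card < d * A.card) *
        ind (∀ e ∈ A ×ˢ (univ : Finset (Fin d)), ω e ∈ C) = 1 := by
      rw [ind_true ⟨hC, hcon⟩, ind_true, one_mul]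
      intro e he
      exact hcl e (Finset.mem_product.1 he).1
    have h2 : ind (2 * C.card ≤ N ∧ 8 * C.card < d * A.card) *
        ind (∀ e ∈ A ×ˢ (univ : Finset (Fin d)), ω e ∈ C) ≤ X2 ω := by
      refine le_trans ?_ (Finset.single_le_sum (f := fun C : Finset (Fin N) => ∑ A ∈ C.powerset,
        ind (2 * C.card ≤ N ∧ 8 * C.card < d * A.card) *
        ind (∀ e ∈ A ×ˢ (univ : Finset (Fin d)), ω e ∈ C))
        (fun _ _ => Finset.sum_nonneg (fun _ _ => mul_nonneg (ind_nonneg _) (ind_nonneg _))) (mem_univ C))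
      exact Finset.single_le_sum (f := fun A : Finset (Fin N) =>
        ind (2 * C.card ≤ N ∧ 8 * C.card < d * A.card) *
        ind (∀ e ∈ A ×ˢ (univ : Finset (Fin d)), ω e ∈ C))
        (fun _ _ => mul_nonneg (ind_nonneg _) (ind_nonneg _)) (Finset.mem_powerset.2 hAC)
    linarith
  · intro k hk1 hkD U hU F hF
    by_contra hcon
    push Not at hcon
    change (k + 1) * U.card < k * F.card at hcon
    change d ^ (4 * k) * U.card ≤ N at hU
    have hUpos : 1 ≤ U.card := by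
      by_contra h0
      have h1 : U.card = 0 := by omega
      have h2 : U = ∅ := Finset.card_eq_zero.1 h1
      have h3 : F = ∅ := by
        apply Finset.eq_empty_of_forall_notMem
        intro e he
        have := (hF e he).1
        rw [h2] at this
        simp at this
      rw [h3] at hcon; simp at hcon
    have hφ : phn k U.card ≤ F.card := by
      unfold phn
      have h1 : k * (U.card / k) ≤ U.card := Nat.mul_div_le _ _
      have h2 : k * (U.card + U.card / k) < k * F.card := by nlinarith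
      have := Nat.lt_of_mul_lt_mul_left h2
      omega
    obtain ⟨F', hF', hcard⟩ := Finset.exists_subset_card_eq hφ
    have hmem : F' ∈ (U ×ˢ (univ : Finset (Fin d))).powersetCard (phn k U.card) := by
      rw [Finset.mem_powersetCard]
      refine ⟨?_, hcard⟩
      intro e he
      exact Finset.mem_product.2 ⟨(hF e (hF' he)).1, mem_univ _⟩
    have h1 : ind (d ^ (4 * k) * U.card ≤ N ∧ 1 ≤ U.card) * ind (∀ e ∈ F', ω e ∈ U) = 1 := by
      rw [ind_true ⟨hU, hUpos⟩, ind_true, one_mul]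
      intro e he
      exact (hF e (hF' he)).2
    have h2 : ind (d ^ (4 * k) * U.card ≤ N ∧ 1 ≤ U.card) * ind (∀ e ∈ F', ω e ∈ U) ≤ X3 ω := by
      refine le_trans ?_ (Finset.single_le_sum (f := fun k => ∑ U : Finset (Fin N),
        ∑ F ∈ (U ×ˢ (univ : Finset (Fin d))).powersetCard (phn k U.card),
        ind (d ^ (4 * k) * U.card ≤ N ∧ 1 ≤ U.card) * ind (∀ e ∈ F, ω e ∈ U))
        (fun _ _ => Finset.sum_nonneg (fun _ _ => Finset.sum_nonneg (fun _ _ =>
          mul_nonneg (ind_nonneg _) (ind_nonneg _)))) (Finset.mem_Icc.2 ⟨hk1, hkD⟩))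
      refine le_trans ?_ (Finset.single_le_sum (f := fun U : Finset (Fin N) =>
        ∑ F ∈ (U ×ˢ (univ : Finset (Fin d))).powersetCard (phn k U.card),
        ind (d ^ (4 * k) * U.card ≤ N ∧ 1 ≤ U.card) * ind (∀ e ∈ F, ω e ∈ U))
        (fun _ _ => Finset.sum_nonneg (fun _ _ =>
          mul_nonneg (ind_nonneg _) (ind_nonneg _))) (mem_univ U))
      exact Finset.single_le_sum (f := fun F : Finset (Fin N × Fin d) =>
        ind (d ^ (4 * k) * U.card ≤ N ∧ 1 ≤ U.card) * ind (∀ e ∈ F, ω e ∈ U))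
        (fun _ _ => mul_nonneg (ind_nonneg _) (ind_nonneg _)) hmem
    linarith
  · intro S hS
    by_contra hcon
    push Not at hcon
    change 8 * (univ.filter (fun e : Fin N × Fin d => e.1 ∈ S ∧ ω e ∉ S)).card < d * S.card at hcon
    have hSne : S.Nonempty := by
      rw [Finset.nonempty_iff_ne_empty]
      intro h0
      rw [h0] at hcon; simp at hcon
    have h1 : ind (S.Nonempty ∧ 2 * S.card ≤ N) *
      ind (8 * (univ.filter (fun e : Fin N × Fin d => e.1 ∈ S ∧ ω e ∉ S)).card < d * S.card) = 1 := by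
      rw [ind_true ⟨hSne, hS⟩, ind_true hcon, one_mul]
    have h2 : ind (S.Nonempty ∧ 2 * S.card ≤ N) *
      ind (8 * (univ.filter (fun e : Fin N × Fin d => e.1 ∈ S ∧ ω e ∉ S)).card < d * S.card) ≤ X4 ω :=
      Finset.single_le_sum (f := fun S : Finset (Fin N) => ind (S.Nonempty ∧ 2 * S.card ≤ N) *
      ind (8 * (univ.filter (fun e : Fin N × Fin d => e.1 ∈ S ∧ ω e ∉ S)).card < d * S.card))
        (fun _ _ => mul_nonneg (ind_nonneg _) (ind_nonneg _)) (mem_univ S)
    linarith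
  · intro y
    by_contra hcon
    push Not at hcon
    change 3 * d < (univ.filter (fun e : Fin N × Fin d => ω e = y)).card at hcon
    have h2 : ind (3 * d < (univ.filter (fun e : Fin N × Fin d => ω e = y)).card) ≤ X5 ω :=
      Finset.single_le_sum (f := fun y : Fin N =>
        ind (3 * d < (univ.filter (fun e : Fin N × Fin d => ω e = y)).card))
        (fun _ _ => ind_nonneg _) (mem_univ y)
    rw [ind_true hcon] at h2
    linarith

/-- for every truncation level there are good graphs of arbitrarily large degree -/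
theorem exists_good_large (D d0 : ℕ) (hD : 1 ≤ D) :
    ∃ G : GData, G.Good ∧ G.D = D ∧ d0 ≤ G.d := by
  have h1 : Filter.Tendsto (fun d : ℕ => (2 * 5 ^ D) * ((d:ℝ) ^ D * (4/5) ^ d)) Filter.atTop
      (nhds ((2 * 5 ^ D) * 0)) := by
    apply Filter.Tendsto.const_mul
    apply tendsto_pow_const_mul_const_pow_of_abs_lt_one
    rw [abs_of_pos (by norm_num)]; norm_num
  rw [mul_zero] at h1
  have h2 := h1.eventually (gt_mem_nhds (show (0:ℝ) < 1/20 by norm_num))
  obtain ⟨d, hd1, hd2⟩ := (h2.and (Filter.eventually_ge_atTop (d0 + D + 64))).exists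
  have hsize : ((2 * (4 * d + 1) ^ D : ℕ) : ℝ) * (4/5) ^ d ≤ 1/20 := by
    refine le_trans ?_ hd1.le
    push_cast
    have h3 : (4 * (d:ℝ) + 1) ≤ 5 * d := by
      have : (1:ℝ) ≤ d := by
        have : 1 ≤ d := by omega
        exact_mod_cast this
      linarith
    have h4 : (4 * (d:ℝ) + 1) ^ D ≤ (5 * d) ^ D := pow_le_pow_left₀ (by positivity) h3 _
    rw [mul_pow] at h4
    have h5 : (0:ℝ) ≤ (4/5) ^ d := by positivity
    calc 2 * (4 * (d:ℝ) + 1) ^ D * (4/5) ^ d ≤ 2 * (5 ^ D * (d:ℝ) ^ D) * (4/5) ^ d := by gcongr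
      _ = _ := by ring
  obtain ⟨ω, hω⟩ := exists_good D d (2 * (4 * d + 1) ^ D) hD (by omega) (by omega) le_rfl hsize
  exact ⟨_, hω, rfl, by change d0 ≤ d; omega⟩

end Pool.Agent.Work.MP_8329b3_an
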