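import Mathlib
import Pool.Agent.Work.MP_8329b3_an.Defs

set_option autoImplicit false

open Finset MeasureTheory

namespace Pool.Agent.Work.MP_8329b3_an

/-- level set indicator -/
noncomputable def chi (t a : ℝ) : ℝ := if t < a then 1 else 0

theorem chi_abs (t a b : ℝ) : |chi t a - chi t b| =
    (Set.Ico (min a b) (max a b)).indicator (fun _ => (1:ℝ)) t := by
  unfold chi
  by_cases h1 : t < a <;> by_cases h2 : t < b
  · have : t ∉ Set.Ico (min a b) (max a b) := by
      intro h; exact absurd h.1 (not_le.2 (lt_min h1 h2))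
    rw [if_pos h1, if_pos h2, Set.indicator_of_notMem this]; simp
  · have : t ∈ Set.Ico (min a b) (max a b) :=
      ⟨min_le_of_right_le (not_lt.1 h2), lt_max_of_lt_left h1⟩
    rw [if_pos h1, if_neg h2, Set.indicator_of_mem this]; simp
  · have : t ∈ Set.Ico (min a b) (max a b) :=
      ⟨min_le_of_left_le (not_lt.1 h1), lt_max_of_lt_right h2⟩
    rw [if_neg h1, if_pos h2, Set.indicator_of_mem this]; simp
  · have : t ∉ Set.Ico (min a b) (max a b) := by
      intro h; exact absurd h.2 (not_lt.2 (max_le (not_lt.1 h1) (not_lt.1 h2)))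
    rw [if_neg h1, if_neg h2, Set.indicator_of_notMem this]; simp

theorem chi_integrable (a b : ℝ) : Integrable (fun t => |chi t a - chi t b|) := by
  simp only [chi_abs]
  rw [integrable_indicator_iff measurableSet_Ico]
  have h1 : volume (Set.Ico (min a b) (max a b)) ≠ ⊤ := by
    rw [Real.volume_Ico]; exact ENNReal.ofReal_ne_top
  have h2 : ‖(1 : ℝ)‖ₑ ≠ ⊤ := by simp
  exact integrableOn_const h1 h2

theorem chi_integral (a b : ℝ) : ∫ t, |chi t a - chi t b| = |a - b| := by
  simp only [chi_abs]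
  rw [integral_indicator measurableSet_Ico, setIntegral_const, Measure.real, Real.volume_Ico,
    ENNReal.toReal_ofReal (by simp), smul_eq_mul, mul_one, max_sub_min_eq_abs, abs_sub_comm]

/-- the cut inequality -/
theorem cut_ineq (G : GData) (hG : G.Good) (S : Finset (Fin G.N)) :
    (G.d:ℝ) * ∑ x, ∑ y, |(if x ∈ S then (1:ℝ) else 0) - (if y ∈ S then 1 else 0)| ≤
      16 * G.N * ∑ e : Fin G.N × Fin G.d,
        |(if e.1 ∈ S then (1:ℝ) else 0) - (if G.ω e ∈ S then 1 else 0)| := by
  -- the double sum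
  have hds : ∀ S : Finset (Fin G.N), ∑ x, ∑ y, |(if x ∈ S then (1:ℝ) else 0) - (if y ∈ S then 1 else 0)|
      = 2 * S.card * (G.N - S.card : ℝ) := by
    intro S
    have h1 : ∀ x y : Fin G.N, |(if x ∈ S then (1:ℝ) else 0) - (if y ∈ S then 1 else 0)|
        = (if x ∈ S then (1:ℝ) else 0) * (1 - (if y ∈ S then 1 else 0)) +
          (1 - (if x ∈ S then (1:ℝ) else 0)) * (if y ∈ S then 1 else 0) := by
      intro x y
      split_ifs <;> simp
    simp only [h1]
    simp only [Finset.sum_add_distrib, ← Finset.mul_sum, ← Finset.sum_mul, Finset.sum_sub_distrib]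
    have h2 : ∑ x : Fin G.N, (if x ∈ S then (1:ℝ) else 0) = S.card := by
      rw [Finset.sum_ite_mem, Finset.univ_inter, Finset.sum_const, nsmul_eq_mul, mul_one]
    simp only [h2, Finset.sum_const, card_univ, Fintype.card_fin, nsmul_eq_mul, mul_one]
    ring
  -- small sets
  have hsmall : ∀ S : Finset (Fin G.N), 2 * S.card ≤ G.N →
      (G.d:ℝ) * (2 * S.card * (G.N - S.card : ℝ)) ≤ 16 * G.N * ∑ e : Fin G.N × Fin G.d,
        |(if e.1 ∈ S then (1:ℝ) else 0) - (if G.ω e ∈ S then 1 else 0)| := by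
    intro S hS
    have h1 := hG.edge S hS
    have h2 : (G.d:ℝ) * S.card ≤ 8 * ∑ e : Fin G.N × Fin G.d,
        |(if e.1 ∈ S then (1:ℝ) else 0) - (if G.ω e ∈ S then 1 else 0)| := by
      have h3 : ((univ.filter (fun e : Fin G.N × Fin G.d => e.1 ∈ S ∧ G.ω e ∉ S)).card : ℝ) ≤
          ∑ e : Fin G.N × Fin G.d,
            |(if e.1 ∈ S then (1:ℝ) else 0) - (if G.ω e ∈ S then 1 else 0)| := by
        rw [Finset.card_filter]
        push_cast
        refine Finset.sum_le_sum (fun e _ => ?_)
        by_cases h1 : e.1 ∈ S <;> by_cases h2 : G.ω e ∈ S <;> simp [h1, h2]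
      have h4 : (G.d:ℝ) * S.card ≤
          8 * (univ.filter (fun e : Fin G.N × Fin G.d => e.1 ∈ S ∧ G.ω e ∉ S)).card := by
        exact_mod_cast h1
      linarith
    have h5 : (G.N - S.card : ℝ) ≤ G.N := by
      have : (0:ℝ) ≤ S.card := by positivity
      linarith
    have h6 : (0:ℝ) ≤ G.d * S.card := by positivity
    have h7 : (0:ℝ) ≤ G.N := by positivity
    calc (G.d:ℝ) * (2 * S.card * (G.N - S.card : ℝ)) = 2 * (G.d * S.card) * (G.N - S.card : ℝ) := by ring
      _ ≤ 2 * (G.d * S.card) * G.N := by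
          apply mul_le_mul_of_nonneg_left h5; positivity
      _ = 2 * G.N * (G.d * S.card) := by ring
      _ ≤ 2 * G.N * (8 * ∑ e : Fin G.N × Fin G.d,
        |(if e.1 ∈ S then (1:ℝ) else 0) - (if G.ω e ∈ S then 1 else 0)|) := by
          apply mul_le_mul_of_nonneg_left h2; positivity
      _ = _ := by ring
  have goal1 : (G.d:ℝ) * ∑ x, ∑ y, |(if x ∈ S then (1:ℝ) else 0) - (if y ∈ S then 1 else 0)| ≤
      16 * G.N * ∑ e : Fin G.N × Fin G.d,
        |(if e.1 ∈ S then (1:ℝ) else 0) - (if G.ω e ∈ S then 1 else 0)| := by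
    rcases le_total (2 * S.card) G.N with h | h
    · rw [hds S]
      exact hsmall S h
    · have hc : Sᶜ.card = G.N - S.card := by rw [Finset.card_compl, Fintype.card_fin]
      have hle : S.card ≤ G.N := by
        have := Finset.card_le_univ S; simpa using this
      have h2 : 2 * Sᶜ.card ≤ G.N := by rw [hc]; omega
      have h3 := hsmall Sᶜ h2
      have h4 : ∀ x y : Fin G.N, |(if x ∈ Sᶜ then (1:ℝ) else 0) - (if y ∈ Sᶜ then 1 else 0)|
          = |(if x ∈ S then (1:ℝ) else 0) - (if y ∈ S then 1 else 0)| := by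
        intro x y
        simp only [mem_compl]
        by_cases h1 : x ∈ S <;> by_cases h2 : y ∈ S <;> simp [h1, h2]
      simp only [h4] at h3
      have h5 := hds S
      have h6 : ((Sᶜ.card : ℕ) : ℝ) = G.N - S.card := by
        rw [hc, Nat.cast_sub hle]
      rw [h6] at h3
      have h7 : ∑ x, ∑ y, |(if x ∈ S then (1:ℝ) else 0) - (if y ∈ S then 1 else 0)|
          = 2 * (G.N - S.card : ℝ) * (G.N - (G.N - S.card) : ℝ) := by
        rw [show 2 * (G.N - S.card : ℝ) * (G.N - (G.N - S.card) : ℝ) = 2 * S.card * (G.N - S.card : ℝ) by ring]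
        exact h5
      rw [h7]
      exact h3
  exact goal1

/-- `L1` Poincare inequality. -/
theorem poincare (G : GData) (hG : G.Good) (g : Fin G.N → ℝ) :
    (G.d:ℝ) * ∑ x, ∑ y, |g x - g y| ≤ 16 * G.N * ∑ e : Fin G.N × Fin G.d, |g e.1 - g (G.ω e)| := by
  classical
  have h1 : (G.d:ℝ) * ∑ x, ∑ y, |g x - g y| =
      ∫ t, (G.d:ℝ) * ∑ x, ∑ y, |chi t (g x) - chi t (g y)| := by
    rw [integral_const_mul, integral_finsetSum]
    · congr 1
      apply Finset.sum_congr rfl
      intro x _
      rw [integral_finsetSum]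
      · exact Finset.sum_congr rfl (fun y _ => (chi_integral _ _).symm)
      · intro y _; exact chi_integrable _ _
    · intro x _
      exact integrable_finsetSum _ (fun y _ => chi_integrable _ _)
  have h2 : 16 * G.N * ∑ e : Fin G.N × Fin G.d, |g e.1 - g (G.ω e)| =
      ∫ t, 16 * G.N * ∑ e : Fin G.N × Fin G.d, |chi t (g e.1) - chi t (g (G.ω e))| := by
    rw [integral_const_mul, integral_finsetSum]
    · congr 1
      exact Finset.sum_congr rfl (fun e _ => (chi_integral _ _).symm)
    · intro e _; exact chi_integrable _ _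
  rw [h1, h2]
  apply integral_mono
  · exact (integrable_finsetSum _ (fun x _ => integrable_finsetSum _ (fun y _ => chi_integrable _ _))).const_mul _
  · exact (integrable_finsetSum _ (fun e _ => chi_integrable _ _)).const_mul _
  · intro t
    have := cut_ineq G hG (univ.filter (fun x => t < g x))
    simp only [mem_filter, mem_univ, true_and] at this
    exact this

end Pool.Agent.Work.MP_8329b3_an
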