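import Mathlib

set_option autoImplicit false

open Finset

namespace Pool.Agent.Work.MP_8329b3_an

/-- Hall's theorem with `k` copies of each edge and `k+1` copies of each vertex. -/
theorem hall_slots {ι V : Type} [Fintype ι] [DecidableEq ι] [Fintype V] [DecidableEq V]
    (s t : ι → V) (k : ℕ)
    (h : ∀ F : Finset ι, k * F.card ≤ (k+1) * (F.image s ∪ F.image t).card) :
    ∃ φ : ι × Fin k → V × Fin (k+1), Function.Injective φ ∧
      ∀ e j, (φ (e, j)).1 = s e ∨ (φ (e, j)).1 = t e := by
  classical
  have key := (Finset.all_card_le_biUnion_card_iff_exists_injective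
    (fun ej : ι × Fin k => (({s ej.1, t ej.1} : Finset V) ×ˢ (univ : Finset (Fin (k+1)))))).1 ?_
  · obtain ⟨φ, hφ, hφ'⟩ := key
    refine ⟨φ, hφ, fun e j => ?_⟩
    have := hφ' (e, j)
    simp only [mem_product, mem_insert, mem_singleton, mem_univ, and_true] at this
    exact this
  · intro S
    set F := S.image Prod.fst with hF
    have h1 : S.card ≤ F.card * k := by
      calc S.card ≤ (F ×ˢ (univ : Finset (Fin k))).card := by
            apply Finset.card_le_card
            intro x hx
            simp only [mem_product, mem_univ, and_true]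
            exact Finset.mem_image_of_mem _ hx
        _ = F.card * k := by simp
    have h2 : S.biUnion (fun ej : ι × Fin k => (({s ej.1, t ej.1} : Finset V) ×ˢ (univ : Finset (Fin (k+1)))))
        = (F.image s ∪ F.image t) ×ˢ (univ : Finset (Fin (k+1))) := by
      ext ⟨v, c⟩
      simp only [mem_biUnion, mem_product, mem_insert, mem_singleton, mem_univ, and_true,
        mem_union, mem_image, hF]
      constructor
      · rintro ⟨ej, hej, h | h⟩
        · exact Or.inl ⟨ej.1, ⟨ej, hej, rfl⟩, h.symm⟩
        · exact Or.inr ⟨ej.1, ⟨ej, hej, rfl⟩, h.symm⟩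
      · rintro (⟨e, ⟨ej, hej, rfl⟩, h⟩ | ⟨e, ⟨ej, hej, rfl⟩, h⟩)
        · exact ⟨ej, hej, Or.inl h.symm⟩
        · exact ⟨ej, hej, Or.inr h.symm⟩
    rw [h2, Finset.card_product]
    have := h F
    simp only [card_univ, Fintype.card_fin]
    calc S.card ≤ F.card * k := h1
      _ = k * F.card := by ring
      _ ≤ (k+1) * (F.image s ∪ F.image t).card := this
      _ = _ := by ring

/-- The parent function extracted from a permutation. -/
def parentFn {ι V : Type} [DecidableEq V] (s t : ι → V) (σ : Equiv.Perm (ι ⊕ V)) (x : V) : V :=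
  match σ.symm (Sum.inr x) with
  | Sum.inl e => if x = s e then t e else if x = t e then s e else x
  | Sum.inr _ => x

theorem parentFn_spec {ι V : Type} [DecidableEq V] (s t : ι → V) (σ : Equiv.Perm (ι ⊕ V)) (x : V) :
    parentFn s t σ x = x ∨ ∃ e, (x = s e ∧ parentFn s t σ x = t e) ∨
      (x = t e ∧ parentFn s t σ x = s e) := by
  unfold parentFn
  rcases hσ : σ.symm (Sum.inr x) with e | y
  · simp only
    by_cases h1 : x = s e
    · right; exact ⟨e, Or.inl ⟨h1, by simp [h1]⟩⟩
    · by_cases h2 : x = t e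
      · right; refine ⟨e, Or.inr ⟨h2, ?_⟩⟩
        rw [if_neg h1, if_pos h2]
      · left; rw [if_neg h1, if_neg h2]
  · left; rfl

theorem parentFn_cover {ι V : Type} [DecidableEq V] (s t : ι → V) (σ : Equiv.Perm (ι ⊕ V)) (e : ι)
    (h : σ (Sum.inl e) = Sum.inr (s e) ∨ σ (Sum.inl e) = Sum.inr (t e)) :
    parentFn s t σ (s e) = t e ∨ parentFn s t σ (t e) = s e := by
  rcases h with h | h
  · left
    have : σ.symm (Sum.inr (s e)) = Sum.inl e := by rw [← h, Equiv.symm_apply_apply]
    unfold parentFn
    rw [this]; simp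
  · right
    have : σ.symm (Sum.inr (t e)) = Sum.inl e := by rw [← h, Equiv.symm_apply_apply]
    unfold parentFn
    rw [this]; simp

/-- Hall + Birkhoff: a probability measure on parent functions such that each edge is uncovered with
probability at most `1/(k+1)`. -/
theorem exists_random_parent {ι V : Type} [Fintype ι] [DecidableEq ι] [Fintype V] [DecidableEq V]
    (s t : ι → V) (k : ℕ)
    (h : ∀ F : Finset ι, k * F.card ≤ (k+1) * (F.image s ∪ F.image t).card) :
    ∃ (w : Equiv.Perm (ι ⊕ V) → ℝ),
      (∀ σ, 0 ≤ w σ) ∧ (∑ σ, w σ = 1) ∧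
      (∀ e, ∑ σ ∈ univ.filter
        (fun σ => ¬ (parentFn s t σ (s e) = t e ∨ parentFn s t σ (t e) = s e)), w σ
          ≤ 1 / ((k:ℝ)+1)) := by
  classical
  obtain ⟨φ, hφ, hφ'⟩ := hall_slots s t k h
  -- the fractional matching
  let m : ι → V → ℕ := fun e v => (univ.filter (fun j : Fin k => (φ (e, j)).1 = v)).card
  have hrow : ∀ e, ∑ v, m e v = k := by
    intro e
    have := Finset.card_eq_sum_card_fiberwise (f := fun j : Fin k => (φ (e, j)).1)
      (s := (univ : Finset (Fin k))) (t := (univ : Finset V)) (fun _ _ => mem_coe.2 (mem_univ _))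
    simp only [card_univ, Fintype.card_fin] at this
    exact this.symm
  have hcol : ∀ v, ∑ e, m e v ≤ k + 1 := by
    intro v
    have h1 : ∑ e, m e v = (univ.filter (fun ej : ι × Fin k => (φ ej).1 = v)).card := by
      rw [Finset.card_filter, Fintype.sum_prod_type]
      apply Finset.sum_congr rfl
      intro e _
      change (univ.filter (fun j : Fin k => (φ (e, j)).1 = v)).card = _
      rw [Finset.card_filter]
    rw [h1]
    calc (univ.filter (fun ej : ι × Fin k => (φ ej).1 = v)).card
        ≤ (univ : Finset (Fin (k+1))).card := by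
          apply Finset.card_le_card_of_injOn (fun ej => (φ ej).2) (fun _ _ => mem_coe.2 (mem_univ _))
          intro a ha b hb hab
          simp only [coe_filter, mem_univ, true_and, Set.mem_ofPred_eq] at ha hb
          apply hφ
          exact Prod.ext (ha.trans hb.symm) hab
      _ = k + 1 := by simp
  have hsupp : ∀ e v, v ≠ s e → v ≠ t e → m e v = 0 := by
    intro e v h1 h2
    apply Finset.card_eq_zero.2
    apply Finset.filter_eq_empty_iff.2
    intro j _ hj
    rcases hφ' e j with h | h
    · exact h1 (hj.symm.trans h)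
    · exact h2 (hj.symm.trans h)
  have hk : (0:ℝ) < (k:ℝ) + 1 := by positivity
  let y : Matrix ι V ℝ := fun e v => (m e v : ℝ) / ((k:ℝ) + 1)
  let A : Matrix (ι ⊕ V) (ι ⊕ V) ℝ := Matrix.fromBlocks
    (Matrix.diagonal (fun _ => 1 / ((k:ℝ)+1))) y y.transpose
    (Matrix.diagonal (fun v => 1 - ∑ e, y e v))
  have hyrow : ∀ e, ∑ v, y e v = (k:ℝ) / (k+1) := by
    intro e
    simp only [y]
    rw [← Finset.sum_div, ← Nat.cast_sum, hrow]
  have hycol : ∀ v, ∑ e, y e v ≤ 1 := by
    intro v
    simp only [y]
    rw [← Finset.sum_div, ← Nat.cast_sum, div_le_one hk]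
    exact_mod_cast hcol v
  have hynn : ∀ e v, 0 ≤ y e v := fun e v => by simp only [y]; positivity
  have hA : A ∈ doublyStochastic ℝ (ι ⊕ V) := by
    rw [mem_doublyStochastic_iff_sum]
    refine ⟨?_, ?_, ?_⟩
    · rintro (e | v) (e' | v')
      · simp only [A, Matrix.fromBlocks_apply₁₁, Matrix.diagonal_apply]
        split_ifs <;> positivity
      · simp only [A, Matrix.fromBlocks_apply₁₂]; exact hynn _ _
      · simp only [A, Matrix.fromBlocks_apply₂₁, Matrix.transpose_apply]; exact hynn _ _
      · simp only [A, Matrix.fromBlocks_apply₂₂, Matrix.diagonal_apply]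
        split_ifs
        · linarith [hycol v]
        · exact le_refl _
    · rintro (e | v)
      · simp only [A, Fintype.sum_sum_type, Matrix.fromBlocks_apply₁₁, Matrix.fromBlocks_apply₁₂,
          Matrix.diagonal_apply, Finset.sum_ite_eq, mem_univ, if_true, hyrow]
        field_simp
        ring
      · simp only [A, Fintype.sum_sum_type, Matrix.fromBlocks_apply₂₁, Matrix.fromBlocks_apply₂₂,
          Matrix.diagonal_apply, Finset.sum_ite_eq, mem_univ, if_true, Matrix.transpose_apply]
        ring
    · rintro (e | v)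
      · simp only [A, Fintype.sum_sum_type, Matrix.fromBlocks_apply₁₁, Matrix.fromBlocks_apply₂₁,
          Matrix.diagonal_apply, Finset.sum_ite_eq', mem_univ, if_true, Matrix.transpose_apply, hyrow]
        field_simp
        ring
      · simp only [A, Fintype.sum_sum_type, Matrix.fromBlocks_apply₁₂, Matrix.fromBlocks_apply₂₂,
          Matrix.diagonal_apply, Finset.sum_ite_eq', mem_univ, if_true]
        ring
  obtain ⟨w, hw0, hw1, hwA⟩ := exists_eq_sum_perm_of_mem_doublyStochastic hA
  refine ⟨w, hw0, hw1, fun e => ?_⟩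
  have hent : ∀ a b, ∑ σ, (if σ a = b then w σ else 0) = A a b := by
    intro a b
    rw [← hwA]
    simp only [Matrix.sum_apply, Matrix.smul_apply, PEquiv.toMatrix_apply,
      Equiv.toPEquiv_apply, Option.mem_some_iff, smul_eq_mul, mul_ite, mul_one, mul_zero]
  calc ∑ σ ∈ univ.filter
        (fun σ => ¬ (parentFn s t σ (s e) = t e ∨ parentFn s t σ (t e) = s e)), w σ
      ≤ ∑ σ ∈ univ.filter (fun σ : Equiv.Perm (ι ⊕ V) =>
          ¬ (σ (Sum.inl e) = Sum.inr (s e) ∨ σ (Sum.inl e) = Sum.inr (t e))), w σ := by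
        apply Finset.sum_le_sum_of_subset_of_nonneg
        · intro σ hσ
          simp only [mem_filter, mem_univ, true_and] at hσ ⊢
          exact fun hc => hσ (parentFn_cover s t σ e hc)
        · intro σ _ _; exact hw0 σ
    _ = ∑ σ, ∑ b ∈ univ.filter (fun b : ι ⊕ V => ¬ (b = Sum.inr (s e) ∨ b = Sum.inr (t e))),
          (if σ (Sum.inl e) = b then w σ else 0) := by
        rw [Finset.sum_filter]
        apply Finset.sum_congr rfl
        intro σ _
        rw [Finset.sum_ite_eq]
        simp only [mem_filter, mem_univ, true_and]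
    _ = ∑ b ∈ univ.filter (fun b : ι ⊕ V => ¬ (b = Sum.inr (s e) ∨ b = Sum.inr (t e))),
          A (Sum.inl e) b := by
        rw [Finset.sum_comm]
        apply Finset.sum_congr rfl
        intro b _
        exact hent _ _
    _ = ∑ b, (if ¬ (b = Sum.inr (s e) ∨ b = Sum.inr (t e)) then A (Sum.inl e) b else 0) := by
        rw [Finset.sum_filter]
    _ ≤ 1 / ((k:ℝ)+1) := by
        rw [Fintype.sum_sum_type]
        have h1 : ∑ v : V, (if ¬ ((Sum.inr v : ι ⊕ V) = Sum.inr (s e) ∨ (Sum.inr v : ι ⊕ V) = Sum.inr (t e))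
            then A (Sum.inl e) (Sum.inr v) else 0) = 0 := by
          apply Finset.sum_eq_zero
          intro v _
          by_cases hv : (Sum.inr v : ι ⊕ V) = Sum.inr (s e) ∨ (Sum.inr v : ι ⊕ V) = Sum.inr (t e)
          · rw [if_neg (not_not.2 hv)]
          · rw [if_pos hv]
            simp only [Sum.inr.injEq, not_or] at hv
            have h3 : A (Sum.inl e) (Sum.inr v) = (m e v : ℝ) / ((k:ℝ) + 1) := rfl
            rw [h3, hsupp e v hv.1 hv.2]; simp
        rw [h1, add_zero]
        simp only [reduceCtorEq, or_self, not_false_eq_true, if_true, A,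
          Matrix.fromBlocks_apply₁₁, Matrix.diagonal_apply, Finset.sum_ite_eq, mem_univ]
        exact le_refl _

end Pool.Agent.Work.MP_8329b3_an
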