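import Mathlib

set_option autoImplicit false

open Finset

namespace Pool.Agent.Work.MP_8329b3_an

/-- the `l1` norm on finitely supported vectors -/
def n1 {ι : Type} [Fintype ι] (a : ι → ℝ) : ℝ := ∑ α, |a α|

section n1
variable {ι : Type} [Fintype ι]

theorem n1_nonneg (a : ι → ℝ) : 0 ≤ n1 a := Finset.sum_nonneg (fun _ _ => abs_nonneg _)

theorem n1_add_le (a b : ι → ℝ) : n1 (a + b) ≤ n1 a + n1 b := by
  unfold n1
  rw [← Finset.sum_add_distrib]
  exact Finset.sum_le_sum (fun _ _ => abs_add_le _ _)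

theorem n1_neg (a : ι → ℝ) : n1 (-a) = n1 a := by
  unfold n1; simp

theorem n1_sub_le (a b : ι → ℝ) : n1 (a - b) ≤ n1 a + n1 b := by
  rw [sub_eq_add_neg]
  exact (n1_add_le _ _).trans (by rw [n1_neg])

theorem n1_sub_comm (a b : ι → ℝ) : n1 (a - b) = n1 (b - a) := by
  rw [← n1_neg, neg_sub]

theorem n1_smul (c : ℝ) (a : ι → ℝ) : n1 (c • a) = |c| * n1 a := by
  unfold n1
  rw [Finset.mul_sum]
  exact Finset.sum_congr rfl (fun _ _ => by simp [abs_mul])

theorem n1_zero : n1 (0 : ι → ℝ) = 0 := by simp [n1]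

theorem n1_single [DecidableEq ι] (β : ι) (c : ℝ) : n1 (Pi.single β c) = |c| := by
  unfold n1
  rw [Finset.sum_eq_single β]
  · simp
  · intro b _ hb; simp [Pi.single_eq_of_ne hb]
  · intro h; exact absurd (mem_univ _) h

theorem n1_sum_le {κ : Type} (s : Finset κ) (a : κ → ι → ℝ) : n1 (∑ j ∈ s, a j) ≤ ∑ j ∈ s, n1 (a j) := by
  classical
  induction s using Finset.induction_on with
  | empty => simp [n1_zero]
  | insert j s hj ih =>
    rw [Finset.sum_insert hj, Finset.sum_insert hj]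
    exact (n1_add_le _ _).trans (by linarith)

end n1

section single
variable {V : Type} [Fintype V] [DecidableEq V]

/-- unit vector -/
noncomputable def ee {ι : Type} [DecidableEq ι] (β : ι) : ι → ℝ := Pi.single β 1

/-- the telescoping vector attached to a parent function -/
noncomputable def avec (p : V → V) (M : ℝ) (R : ℕ) (x : V) : V ⊕ V → ℝ :=
  (1 / (R:ℝ)) • ∑ s ∈ range R, (M • ee (Sum.inl (p^[s] x)) + ∑ t ∈ range s, ee (Sum.inr (p^[t] x)))

theorem n1_ee {ι : Type} [Fintype ι] [DecidableEq ι] (β : ι) : n1 (ee β) = 1 := by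
  unfold ee; rw [n1_single]; simp

theorem n1_avec_le (p : V → V) (M : ℝ) (hM : 0 ≤ M) (R : ℕ) (hR : 0 < R) (x : V) :
    n1 (avec p M R x) ≤ M + R := by
  have hR' : (0:ℝ) < R := by exact_mod_cast hR
  unfold avec
  rw [n1_smul, abs_of_pos (by positivity)]
  have h1 : n1 (∑ s ∈ range R, (M • ee (Sum.inl (p^[s] x)) + ∑ t ∈ range s, ee (Sum.inr (p^[t] x)))
      : V ⊕ V → ℝ) ≤ ∑ s ∈ range R, (M + R) := by
    refine (n1_sum_le _ _).trans (Finset.sum_le_sum (fun s hs => ?_))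
    refine (n1_add_le _ _).trans (add_le_add ?_ ?_)
    · rw [n1_smul, n1_ee, abs_of_nonneg hM, mul_one]
    · refine (n1_sum_le _ _).trans ?_
      simp only [n1_ee, sum_const, card_range, nsmul_eq_mul, mul_one]
      exact_mod_cast (Finset.mem_range.1 hs).le
  rw [Finset.sum_const, card_range, nsmul_eq_mul] at h1
  calc 1 / (R:ℝ) * _ ≤ 1 / (R:ℝ) * ((R:ℝ) * (M + R)) := by gcongr
    _ = M + R := by field_simp

theorem n1_avec_sub_le (p : V → V) (M : ℝ) (hM : 0 ≤ M) (R : ℕ) (hR : 0 < R) (x : V) :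
    n1 (avec p M R x - avec p M R (p x)) ≤ 2 * M / R + 2 := by
  have hR' : (0:ℝ) < R := by exact_mod_cast hR
  have h0 : avec p M R x - avec p M R (p x) =
      (1 / (R:ℝ)) • (M • (ee (Sum.inl x) - ee (Sum.inl (p^[R] x))) +
        ∑ s ∈ range R, (ee (Sum.inr x) - ee (Sum.inr (p^[s] x)))) := by
    unfold avec
    rw [← smul_sub, ← Finset.sum_sub_distrib]
    congr 1
    have hA : ∀ s, (p^[s] (p x)) = p^[s+1] x := fun s => rfl
    have h1 : ∀ s, (M • ee (Sum.inl (p^[s] x)) + ∑ t ∈ range s, ee (Sum.inr (p^[t] x)))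
        - (M • ee (Sum.inl (p^[s] (p x))) + ∑ t ∈ range s, ee (Sum.inr (p^[t] (p x))))
        = M • (ee (Sum.inl (p^[s] x)) - ee (Sum.inl (p^[s+1] x))) +
          (ee (Sum.inr x) - ee (Sum.inr (p^[s] x)) : V ⊕ V → ℝ) := by
      intro s
      have h2 : ∑ t ∈ range s, (ee (Sum.inr (p^[t] x)) - ee (Sum.inr (p^[t+1] x)) : V ⊕ V → ℝ)
          = ee (Sum.inr x) - ee (Sum.inr (p^[s] x)) := by
        rw [Finset.sum_range_sub' (fun t => (ee (Sum.inr (p^[t] x)) : V ⊕ V → ℝ))]
        rfl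
      rw [← h2, Finset.sum_sub_distrib]
      simp only [hA]
      rw [smul_sub]
      abel
    rw [Finset.sum_congr rfl (fun s _ => h1 s), Finset.sum_add_distrib]
    congr 1
    rw [← Finset.smul_sum, Finset.sum_range_sub' (fun t => (ee (Sum.inl (p^[t] x)) : V ⊕ V → ℝ))]
    rfl
  rw [h0, n1_smul, abs_of_pos (by positivity)]
  have h1 : n1 (M • (ee (Sum.inl x) - ee (Sum.inl (p^[R] x))) +
        ∑ s ∈ range R, (ee (Sum.inr x) - ee (Sum.inr (p^[s] x))) : V ⊕ V → ℝ) ≤ 2 * M + 2 * R := by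
    refine (n1_add_le _ _).trans (add_le_add ?_ ?_)
    · rw [n1_smul, abs_of_nonneg hM]
      have : n1 (ee (Sum.inl x) - ee (Sum.inl (p^[R] x)) : V ⊕ V → ℝ) ≤ 2 := by
        refine (n1_sub_le _ _).trans ?_
        rw [n1_ee, n1_ee]; norm_num
      nlinarith
    · refine (n1_sum_le _ _).trans ?_
      calc ∑ s ∈ range R, n1 (ee (Sum.inr x) - ee (Sum.inr (p^[s] x)) : V ⊕ V → ℝ)
          ≤ ∑ s ∈ range R, (2:ℝ) := by
            refine Finset.sum_le_sum (fun s _ => ?_)
            refine (n1_sub_le _ _).trans ?_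
            rw [n1_ee, n1_ee]; norm_num
        _ = 2 * R := by rw [sum_const, card_range, nsmul_eq_mul]; ring
  calc 1 / (R:ℝ) * _ ≤ 1 / (R:ℝ) * (2 * M + 2 * R) := by gcongr
    _ = 2 * M / R + 2 := by field_simp

theorem sum_ee_smul {ι : Type} [Fintype ι] [DecidableEq ι] {E : Type} [AddCommGroup E] [Module ℝ E]
    (v : ι → E) (β : ι) : ∑ α, (ee β : ι → ℝ) α • v α = v β := by
  unfold ee
  rw [Finset.sum_eq_single β]
  · simp
  · intro b _ hb; simp [Pi.single_eq_of_ne hb]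
  · intro h; exact absurd (mem_univ _) h

theorem avec_sum {E : Type} [AddCommGroup E] [Module ℝ E] (p : V → V) (M : ℝ) (hM : 0 < M)
    (R : ℕ) (hR : 0 < R) (x : V) (f : V → E) :
    ∑ α, avec p M R x α • (Sum.elim (fun y => M⁻¹ • f y) (fun y => f y - f (p y)) α : E) = f x := by
  have hR' : (0:ℝ) < R := by exact_mod_cast hR
  set v : V ⊕ V → E := Sum.elim (fun y => M⁻¹ • f y) (fun y => f y - f (p y)) with hv
  -- the linear map
  let T : (V ⊕ V → ℝ) →ₗ[ℝ] E := Fintype.linearCombination ℝ v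
  have hT : ∀ a, T a = ∑ α, a α • v α := fun a => by
    simp [T, Fintype.linearCombination_apply]
  have hTe : ∀ β, T (ee β) = v β := fun β => by rw [hT, sum_ee_smul]
  rw [← hT]
  unfold avec
  rw [map_smul, map_sum]
  have h1 : ∀ s, T (M • ee (Sum.inl (p^[s] x)) + ∑ t ∈ range s, ee (Sum.inr (p^[t] x))) = f x := by
    intro s
    rw [map_add, map_smul, map_sum, hTe]
    simp only [hTe]
    have h2 : ∑ t ∈ range s, v (Sum.inr (p^[t] x)) = f x - f (p^[s] x) := by
      have : ∀ t, v (Sum.inr (p^[t] x)) = f (p^[t] x) - f (p^[t+1] x) := by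
        intro t
        rw [hv, Sum.elim_inr, Function.iterate_succ_apply']
      simp only [this]
      rw [Finset.sum_range_sub' (fun t => f (p^[t] x))]
      rfl
    rw [h2, hv, Sum.elim_inl, smul_smul, mul_inv_cancel₀ hM.ne', one_smul]
    abel
  simp only [h1]
  rw [sum_const, card_range, ← Nat.cast_smul_eq_nsmul ℝ, smul_smul]
  rw [one_div, inv_mul_cancel₀ hR'.ne', one_smul]

end single

/-- The basic `l1`-factorisation piece, averaged over a probability measure on parent functions. -/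
theorem piece {V S : Type} [Fintype V] [DecidableEq V] [Fintype S]
    {E : Type} [NormedAddCommGroup E] [NormedSpace ℝ E] (f : V → E) (M : ℝ) (R : ℕ)
    (hM : 0 < M) (hR : 0 < R) (hf : ∀ x, ‖f x‖ ≤ M) (p : S → V → V)
    (hp : ∀ σ x, ‖f x - f (p σ x)‖ ≤ 1) (w : S → ℝ) (hw0 : ∀ σ, 0 ≤ w σ) (hw1 : ∑ σ, w σ = 1)
    [∀ x y σ, Decidable (p σ x = y ∨ p σ y = x)] :
    ∃ (a : V → (S × (V ⊕ V)) → ℝ) (v : (S × (V ⊕ V)) → E),
      (∀ α, ‖v α‖ ≤ 1) ∧ (∀ x, ∑ α, a x α • v α = f x) ∧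
      (∀ x, n1 (a x) ≤ M + R) ∧
      (∀ x y, n1 (a x - a y) ≤ 2 * M / R + 2 +
        2 * (M + R) * ∑ σ ∈ univ.filter (fun σ => ¬ (p σ x = y ∨ p σ y = x)), w σ) := by
  have hR' : (0:ℝ) < R := by exact_mod_cast hR
  have hn : ∀ b : S → (V ⊕ V) → ℝ, n1 (fun α : S × (V ⊕ V) => w α.1 * b α.1 α.2)
      = ∑ σ, w σ * n1 (b σ) := by
    intro b
    unfold n1
    rw [Fintype.sum_prod_type]
    apply Finset.sum_congr rfl
    intro σ _
    rw [Finset.mul_sum]
    apply Finset.sum_congr rfl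
    intro α _
    rw [abs_mul, abs_of_nonneg (hw0 σ)]
  refine ⟨fun x α => w α.1 * avec (p α.1) M R x α.2,
    fun α => Sum.elim (fun y => M⁻¹ • f y) (fun y => f y - f (p α.1 y)) α.2, ?_, ?_, ?_, ?_⟩
  · rintro ⟨σ, y | y⟩
    · simp only [Sum.elim_inl]
      rw [norm_smul, norm_inv, Real.norm_eq_abs, abs_of_pos hM]
      rw [inv_mul_le_iff₀ hM, mul_one]; exact hf y
    · simp only [Sum.elim_inr]; exact hp σ y
  · intro x
    rw [Fintype.sum_prod_type]
    have : ∀ σ, ∑ y : V ⊕ V, (w σ * avec (p σ) M R x y) •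
        (Sum.elim (fun y => M⁻¹ • f y) (fun y => f y - f (p σ y)) y : E) = w σ • f x := by
      intro σ
      rw [← avec_sum (p σ) M hM R hR x f, Finset.smul_sum]
      apply Finset.sum_congr rfl
      intro y _
      rw [smul_smul]
    simp only [this]
    rw [← Finset.sum_smul, hw1, one_smul]
  · intro x
    change n1 (fun α : S × (V ⊕ V) => w α.1 * avec (p α.1) M R x α.2) ≤ _
    rw [hn (fun σ => avec (p σ) M R x)]
    calc ∑ σ, w σ * n1 (avec (p σ) M R x) ≤ ∑ σ, w σ * (M + R) := by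
          refine Finset.sum_le_sum (fun σ _ => ?_)
          exact mul_le_mul_of_nonneg_left (n1_avec_le _ _ hM.le _ hR _) (hw0 σ)
      _ = M + R := by rw [← Finset.sum_mul, hw1, one_mul]
  · intro x y
    change n1 ((fun α : S × (V ⊕ V) => w α.1 * avec (p α.1) M R x α.2)
        - (fun α : S × (V ⊕ V) => w α.1 * avec (p α.1) M R y α.2)) ≤ _
    have h1 : (fun α : S × (V ⊕ V) => w α.1 * avec (p α.1) M R x α.2)
        - (fun α : S × (V ⊕ V) => w α.1 * avec (p α.1) M R y α.2)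
        = (fun α : S × (V ⊕ V) => w α.1 * (avec (p α.1) M R x - avec (p α.1) M R y) α.2) := by
      ext α; simp [mul_sub]
    rw [h1, hn (fun σ => avec (p σ) M R x - avec (p σ) M R y)]
    have h2 : ∀ σ, w σ * n1 (avec (p σ) M R x - avec (p σ) M R y) ≤
        w σ * (2 * M / R + 2) + (if ¬ (p σ x = y ∨ p σ y = x) then w σ * (2 * (M + R)) else 0) := by
      intro σ
      have hpos : 0 ≤ 2 * M / R + 2 := by positivity
      by_cases hc : p σ x = y ∨ p σ y = x
      · rw [if_neg (not_not.2 hc), add_zero]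
        apply mul_le_mul_of_nonneg_left _ (hw0 σ)
        rcases hc with hc | hc
        · rw [← hc]; exact n1_avec_sub_le _ _ hM.le _ hR _
        · rw [← hc, n1_sub_comm]; exact n1_avec_sub_le _ _ hM.le _ hR _
      · rw [if_pos hc]
        have h3 : n1 (avec (p σ) M R x - avec (p σ) M R y) ≤ 2 * (M + R) := by
          refine (n1_sub_le _ _).trans ?_
          have := n1_avec_le (p σ) M hM.le R hR x
          have := n1_avec_le (p σ) M hM.le R hR y
          linarith
        have := mul_le_mul_of_nonneg_left h3 (hw0 σ)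
        have := mul_nonneg (hw0 σ) hpos
        linarith
    refine (Finset.sum_le_sum (fun σ _ => h2 σ)).trans ?_
    rw [Finset.sum_add_distrib, ← Finset.sum_mul, hw1, one_mul, ← Finset.sum_filter, ← Finset.sum_mul]
    apply le_of_eq; ring

end Pool.Agent.Work.MP_8329b3_an
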