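import Mathlib
import Pool.Agent.Work.MP_8329b3_an.Defs
import Pool.Agent.Work.MP_8329b3_an.Birkhoff
import Pool.Agent.Work.MP_8329b3_an.Piece

set_option autoImplicit false

open Finset

namespace Pool.Agent.Work.MP_8329b3_an

/-- One scale of the factorisation. -/
theorem scale_piece (G : GData) (hG : G.Good) {E : Type} [NormedAddCommGroup E] [NormedSpace ℝ E]
    (f : Fin G.N → E) (hf : ∀ e : Fin G.N × Fin G.d, ‖f e.1 - f (G.ω e)‖ ≤ 1)
    (r k : ℕ) (hr : 0 < r) (hrk : r ≤ 16 * k) (hk1 : 1 ≤ k)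
    (hcard : ∀ U : Finset (Fin G.N), (∀ x ∈ U, (r:ℝ) < ‖f x‖) →
      k ≤ G.D ∧ G.d ^ (4 * k) * U.card ≤ G.N ∨ U = ∅) :
    ∃ (ι : Type) (_ : Fintype ι) (a : Fin G.N → ι → ℝ) (v : ι → E),
      (∀ α, ‖v α‖ ≤ 1) ∧
      (∀ x, (r:ℝ) < ‖f x‖ → ‖f x‖ < 4 * r → ∑ α, a x α • v α = f x) ∧
      (∀ x, n1 (a x) ≤ 8 * r) ∧
      (∀ e : Fin G.N × Fin G.d, (r:ℝ) < ‖f e.1‖ → ‖f e.1‖ < 4 * r → (r:ℝ) < ‖f (G.ω e)‖ →
        ‖f (G.ω e)‖ < 4 * r → n1 (a e.1 - a (G.ω e)) ≤ 260) := by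
  classical
  let P : Fin G.N → Prop := fun x => (r:ℝ) < ‖f x‖ ∧ ‖f x‖ < 4 * r
  let f' : Fin G.N → E := fun x => if P x then f x else 0
  let ι := {e : Fin G.N × Fin G.d // P e.1 ∧ P (G.ω e)}
  let s : ι → Fin G.N := fun e => e.1.1
  let t : ι → Fin G.N := fun e => G.ω e.1
  have hr' : (0:ℝ) < r := by exact_mod_cast hr
  have hHall : ∀ F : Finset ι, k * F.card ≤ (k+1) * (F.image s ∪ F.image t).card := by
    intro F
    set U := F.image s ∪ F.image t with hU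
    have hUP : ∀ x ∈ U, P x := by
      intro x hx
      rcases Finset.mem_union.1 hx with hx | hx
      · obtain ⟨e, _, rfl⟩ := Finset.mem_image.1 hx; exact e.2.1
      · obtain ⟨e, _, rfl⟩ := Finset.mem_image.1 hx; exact e.2.2
    rcases hcard U (fun x hx => (hUP x hx).1) with ⟨h1, h2⟩ | h0
    · have := hG.sparse k hk1 h1 U h2 (F.map ⟨Subtype.val, Subtype.val_injective⟩) ?_
      · rwa [Finset.card_map] at this
      · intro e he
        obtain ⟨e', he', rfl⟩ := Finset.mem_map.1 he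
        exact ⟨Finset.mem_union_left _ (Finset.mem_image_of_mem s he'),
          Finset.mem_union_right _ (Finset.mem_image_of_mem t he')⟩
    · have : F = ∅ := by
        by_contra hne
        obtain ⟨e, he⟩ := Finset.nonempty_iff_ne_empty.2 hne
        have : s e ∈ U := Finset.mem_union_left _ (Finset.mem_image_of_mem s he)
        rw [h0] at this; simp at this
      rw [this]; simp
  obtain ⟨w, hw0, hw1, hwe⟩ := exists_random_parent s t k hHall
  have hf'norm : ∀ x, ‖f' x‖ ≤ 4 * (r:ℝ) := by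
    intro x
    simp only [f']
    split_ifs with h
    · exact h.2.le
    · rw [norm_zero]; positivity
  have hp : ∀ (σ : Equiv.Perm (ι ⊕ Fin G.N)) x, ‖f' x - f' (parentFn s t σ x)‖ ≤ 1 := by
    intro σ x
    rcases parentFn_spec s t σ x with h | ⟨e, ⟨h1, h2⟩ | ⟨h1, h2⟩⟩
    · rw [h]; simp
    · rw [h1] at h2 ⊢
      rw [h2]
      have ha : f' (s e) = f (s e) := if_pos e.2.1
      have hb : f' (t e) = f (t e) := if_pos e.2.2
      rw [ha, hb]; exact hf e.1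
    · rw [h1] at h2 ⊢
      rw [h2]
      have ha : f' (s e) = f (s e) := if_pos e.2.1
      have hb : f' (t e) = f (t e) := if_pos e.2.2
      rw [ha, hb, norm_sub_rev]; exact hf e.1
  obtain ⟨a, v, hv, hav, han, had⟩ := piece f' (4 * (r:ℝ)) (4 * r) (by positivity) (by positivity)
    hf'norm (fun σ => parentFn s t σ) hp w hw0 hw1
  refine ⟨_, inferInstance, a, v, hv, ?_, ?_, ?_⟩
  · intro x h1 h2
    rw [hav x]
    exact if_pos ⟨h1, h2⟩
  · intro x
    have := han x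
    push_cast at this
    linarith
  · intro e h1 h2 h3 h4
    refine (had e.1 (G.ω e)).trans ?_
    have he := hwe ⟨e, ⟨h1, h2⟩, ⟨h3, h4⟩⟩
    have hk' : (0:ℝ) < (k:ℝ) + 1 := by positivity
    have hrk' : (r:ℝ) ≤ 16 * k := by exact_mod_cast hrk
    have h5 : 2 * (4 * (r:ℝ)) / ((4 * r : ℕ) : ℝ) = 2 := by
      push_cast; field_simp
    rw [h5]
    have h6 : 2 * (4 * (r:ℝ) + ((4 * r : ℕ) : ℝ)) * ∑ σ ∈ univ.filter
        (fun σ => ¬ (parentFn s t σ e.1 = G.ω e ∨ parentFn s t σ (G.ω e) = e.1)), w σ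
        ≤ 2 * (4 * (r:ℝ) + ((4 * r : ℕ) : ℝ)) * (1 / ((k:ℝ)+1)) := by
      apply mul_le_mul_of_nonneg_left _ (by positivity)
      exact he
    have h7 : 2 * (4 * (r:ℝ) + ((4 * r : ℕ) : ℝ)) * (1 / ((k:ℝ)+1)) ≤ 256 := by
      push_cast
      rw [mul_one_div, div_le_iff₀ hk']
      nlinarith
    linarith

end Pool.Agent.Work.MP_8329b3_an
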