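import Mathlib
import Pool.Agent.Work.MP_8329b3_an.Scale

set_option autoImplicit false

open Finset

namespace Pool.Agent.Work.MP_8329b3_an

/-- Concentration of Lipschitz maps into sets covered by few unit balls. -/
theorem concentration (G : GData) (hG : G.Good) {E : Type} [NormedAddCommGroup E] [NormedSpace ℝ E]
    (f : Fin G.N → E) (hf : ∀ e : Fin G.N × Fin G.d, ‖f e.1 - f (G.ω e)‖ ≤ 1)
    (T : Finset E) (hT : ∀ x, ∃ c ∈ T, ‖f x - c‖ ≤ 1) (hL : 4 * T.card ≤ G.d) :
    ∃ b : E, (∃ x0, ‖f x0 - b‖ ≤ 1) ∧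
      ∀ m : ℕ, G.d ^ m * (univ.filter (fun x => (m:ℝ) + 2 < ‖f x - b‖)).card ≤ 8 ^ m * G.N := by
  classical
  -- pigeonhole
  have hpig : ∃ c ∈ T, G.N ≤ T.card * (univ.filter (fun x => ‖f x - c‖ ≤ 1)).card := by
    by_contra hcon
    push Not at hcon
    have hTne : T.Nonempty := by
      obtain ⟨c, hc, _⟩ := hT ⟨0, hG.hN⟩
      exact ⟨c, hc⟩
    have h1 : (univ : Finset (Fin G.N)).card ≤ ∑ c ∈ T, (univ.filter (fun x => ‖f x - c‖ ≤ 1)).card := by
      refine (Finset.card_le_card ?_).trans Finset.card_biUnion_le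
      intro x _
      obtain ⟨c, hc, hx⟩ := hT x
      exact Finset.mem_biUnion.2 ⟨c, hc, Finset.mem_filter.2 ⟨mem_univ _, hx⟩⟩
    have h2 : T.card * ∑ c ∈ T, (univ.filter (fun x => ‖f x - c‖ ≤ 1)).card < T.card * G.N := by
      rw [Finset.mul_sum]
      calc ∑ c ∈ T, T.card * (univ.filter (fun x => ‖f x - c‖ ≤ 1)).card
          < ∑ c ∈ T, G.N := Finset.sum_lt_sum_of_nonempty hTne (fun c hc => hcon c hc)
        _ = T.card * G.N := by rw [Finset.sum_const, smul_eq_mul]
    have h3 : G.N ≤ ∑ c ∈ T, (univ.filter (fun x => ‖f x - c‖ ≤ 1)).card := by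
      simpa using h1
    exact absurd (Nat.mul_le_mul_left T.card h3) (not_le.2 h2)
  obtain ⟨b, hbT, hb⟩ := hpig
  set B := univ.filter (fun x => ‖f x - b‖ ≤ 1) with hB
  let C : ℕ → Finset (Fin G.N) := fun m => univ.filter (fun x => (m:ℝ) + 2 < ‖f x - b‖)
  have hstep : ∀ (e : Fin G.N × Fin G.d), ‖f e.1 - b‖ ≤ ‖f (G.ω e) - b‖ + 1 := by
    intro e
    have : f e.1 - b = (f (G.ω e) - b) + (f e.1 - f (G.ω e)) := by abel
    rw [this]
    exact (norm_add_le _ _).trans (by linarith [hf e])
  have hBpos : 0 < B.card := by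
    rcases Nat.eq_zero_or_pos B.card with h | h
    · rw [h, mul_zero] at hb
      exact absurd hb (not_le.2 hG.hN)
    · exact h
  have hTpos : 0 < T.card := Finset.card_pos.2 ⟨b, hbT⟩
  -- cross
  have hC0 : 2 * (C 0).card ≤ G.N := by
    have h1 := hG.cross (C 0) B ?_
    · have h2 : G.d * (C 0).card * G.N ≤ T.card * (2 * G.N ^ 2) := by
        calc G.d * (C 0).card * G.N ≤ G.d * (C 0).card * (T.card * B.card) :=
              Nat.mul_le_mul_left _ hb
          _ = T.card * (G.d * (C 0).card * B.card) := by ring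
          _ ≤ _ := Nat.mul_le_mul_left _ h1
      have h3 : G.d * (C 0).card ≤ T.card * (2 * G.N) := by
        apply Nat.le_of_mul_le_mul_right _ hG.hN
        calc _ ≤ _ := h2
          _ = _ := by ring
      have h4 : 4 * T.card * (C 0).card ≤ T.card * (2 * G.N) :=
        (Nat.mul_le_mul_right _ hL).trans h3
      have h5 : T.card * (2 * (2 * (C 0).card)) ≤ T.card * (2 * G.N) := by
        calc _ = 4 * T.card * (C 0).card := by ring
          _ ≤ _ := h4
      have := Nat.le_of_mul_le_mul_left h5 hTpos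
      omega
    · intro e he hwe
      simp only [C, mem_filter, mem_univ, true_and, Nat.cast_zero, zero_add] at he
      simp only [hB, mem_filter, mem_univ, true_and] at hwe
      linarith [hstep e]
  have hmono : ∀ m, C (m+1) ⊆ C m := by
    intro m x hx
    simp only [C, mem_filter, mem_univ, true_and, Nat.cast_add, Nat.cast_one] at hx ⊢
    linarith
  have hhalf : ∀ m, 2 * (C m).card ≤ G.N := by
    intro m
    induction m with
    | zero => exact hC0
    | succ m ih => exact (Nat.mul_le_mul_left 2 (Finset.card_le_card (hmono m))).trans ih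
  refine ⟨b, ?_, ?_⟩
  · obtain ⟨x0, hx0⟩ := Finset.card_pos.1 hBpos
    exact ⟨x0, (Finset.mem_filter.1 hx0).2⟩
  · intro m
    change G.d ^ m * (C m).card ≤ 8 ^ m * G.N
    induction m with
    | zero =>
      simp only [pow_zero, one_mul]
      have := hhalf 0
      omega
    | succ m ih =>
      have h1 := hG.exp (C (m+1)) (C m) (hmono m) (hhalf m) ?_
      · calc G.d ^ (m+1) * (C (m+1)).card = G.d ^ m * (G.d * (C (m+1)).card) := by ring
          _ ≤ G.d ^ m * (8 * (C m).card) := Nat.mul_le_mul_left _ h1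
          _ = 8 * (G.d ^ m * (C m).card) := by ring
          _ ≤ 8 * (8 ^ m * G.N) := Nat.mul_le_mul_left _ ih
          _ = 8 ^ (m+1) * G.N := by ring
      · intro e he
        simp only [C, mem_filter, mem_univ, true_and, Nat.cast_add, Nat.cast_one] at he ⊢
        linarith [hstep e]

end Pool.Agent.Work.MP_8329b3_an
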