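import Mathlib
import Pool.Agent.Work.MP_8329b3_an.Conc

set_option autoImplicit false

open Finset

namespace Pool.Agent.Work.MP_8329b3_an

/-- cut-off function -/
noncomputable def phi (r t : ℝ) : ℝ := min 1 (max 0 ((t - r) / r))

theorem phi_nonneg (r t : ℝ) : 0 ≤ phi r t := le_min zero_le_one (le_max_left _ _)
theorem phi_le_one (r t : ℝ) : phi r t ≤ 1 := min_le_left _ _
theorem phi_zero {r t : ℝ} (hr : 0 < r) (h : t ≤ r) : phi r t = 0 := by
  unfold phi
  have : (t - r) / r ≤ 0 := div_nonpos_of_nonpos_of_nonneg (by linarith) hr.le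
  rw [max_eq_left this]; simp
theorem phi_one {r t : ℝ} (hr : 0 < r) (h : 2 * r ≤ t) : phi r t = 1 := by
  unfold phi
  have : 1 ≤ (t - r) / r := by rw [le_div_iff₀ hr]; linarith
  rw [max_eq_right (by linarith)]; exact min_eq_left this
theorem phi_lip {r : ℝ} (hr : 0 < r) (t t' : ℝ) : |phi r t - phi r t'| ≤ |t - t'| / r := by
  have h1 : |t - t'| / r = |(t - r) / r - (t' - r) / r| := by
    rw [← sub_div, abs_div, abs_of_pos hr]; congr 2; ring
  rw [h1]
  unfold phi
  refine (abs_min_sub_min_le_max _ _ _ _).trans ?_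
  rw [sub_self, abs_zero]
  refine max_le (abs_nonneg _) ?_
  refine (abs_max_sub_max_le_max _ _ _ _).trans ?_
  rw [sub_self, abs_zero]
  exact max_le (abs_nonneg _) le_rfl

/-- scales -/
noncomputable def rr (i : ℕ) : ℝ := 16 * 2 ^ i

theorem rr_pos (i : ℕ) : 0 < rr i := by unfold rr; positivity
theorem rr_succ (i : ℕ) : rr (i+1) = 2 * rr i := by unfold rr; ring

/-- partition of unity -/
noncomputable def psi (i : ℕ) (t : ℝ) : ℝ := phi (rr i) t - phi (rr (i+1)) t

theorem psi_nonneg (i : ℕ) (t : ℝ) : 0 ≤ psi i t := by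
  unfold psi
  rcases le_total t (rr (i+1)) with h | h
  · rw [phi_zero (rr_pos _) h, sub_zero]; exact phi_nonneg _ _
  · rw [phi_one (rr_pos i) (by rw [← rr_succ]; exact h)]
    linarith [phi_le_one (rr (i+1)) t]

theorem psi_le_one (i : ℕ) (t : ℝ) : psi i t ≤ 1 := by
  unfold psi; linarith [phi_nonneg (rr (i+1)) t, phi_le_one (rr i) t]

theorem psi_eq_zero (i : ℕ) (t : ℝ) (h : ¬ (rr i < t ∧ t < 4 * rr i)) : psi i t = 0 := by
  unfold psi
  by_cases h1 : t ≤ rr i
  · rw [phi_zero (rr_pos _) h1, phi_zero (rr_pos _) (by rw [rr_succ]; linarith [rr_pos i]), sub_zero]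
  · have h2 : 4 * rr i ≤ t := by
      by_contra h3
      exact h ⟨not_le.1 h1, not_le.1 h3⟩
    rw [phi_one (rr_pos _) (by linarith [rr_pos i]), phi_one (rr_pos _) (by rw [rr_succ]; linarith), sub_self]

theorem psi_lip (i : ℕ) (t t' : ℝ) (h : |t - t'| ≤ 1) : |psi i t - psi i t'| ≤ 2 / rr i := by
  unfold psi
  have h1 := phi_lip (rr_pos i) t t'
  have h2 := phi_lip (rr_pos (i+1)) t t'
  have h3 : |t - t'| / rr i ≤ 1 / rr i := by
    apply div_le_div_of_nonneg_right h (rr_pos i).le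
  have h4 : |t - t'| / rr (i+1) ≤ 1 / rr i := by
    rw [rr_succ]
    apply div_le_div₀ zero_le_one h (rr_pos i) (by linarith [rr_pos i])
  have h5 : phi (rr i) t - phi (rr (i+1)) t - (phi (rr i) t' - phi (rr (i+1)) t')
      = (phi (rr i) t - phi (rr i) t') - (phi (rr (i+1)) t - phi (rr (i+1)) t') := by ring
  rw [h5]
  refine (abs_sub _ _).trans ?_
  have : (2:ℝ) / rr i = 1 / rr i + 1 / rr i := by ring
  linarith

theorem psi_sum (K : ℕ) (t : ℝ) : ∑ i ∈ range K, psi i t = phi (rr 0) t - phi (rr K) t := by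
  unfold psi
  rw [Finset.sum_range_sub' (fun i => phi (rr i) t)]

/-- at most two scales are active at a given point -/
theorem card_active (K : ℕ) (t : ℝ) :
    ((range K).filter (fun i => rr i < t ∧ t < 4 * rr i)).card ≤ 2 := by
  classical
  by_contra hcon
  push Not at hcon
  obtain ⟨a, ha, b, hb, c, hc, hab, hac, hbc⟩ := Finset.two_lt_card.1 hcon
  simp only [mem_filter] at ha hb hc
  -- any two active scales differ by at most one
  have key : ∀ i j : ℕ, (rr i < t ∧ t < 4 * rr i) → (rr j < t ∧ t < 4 * rr j) → j < i + 2 := by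
    intro i j hi hj
    by_contra h
    push Not at h
    have : rr (i + 2) ≤ rr j := by
      unfold rr
      have : (2:ℝ) ^ (i+2) ≤ 2 ^ j := pow_le_pow_right₀ (by norm_num) h
      linarith
    rw [rr_succ, rr_succ] at this
    linarith [hi.2, hj.1]
  have h1 := key a b ha.2 hb.2
  have h2 := key b a hb.2 ha.2
  have h3 := key a c ha.2 hc.2
  have h4 := key c a hc.2 ha.2
  have h5 := key b c hb.2 hc.2
  have h6 := key c b hc.2 hb.2
  omega

/-- The factorisation through `l1` with absolute constants. -/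
theorem propA (G : GData) (hG : G.Good) {E : Type} [NormedAddCommGroup E] [NormedSpace ℝ E]
    (f : Fin G.N → E) (hf : ∀ e : Fin G.N × Fin G.d, ‖f e.1 - f (G.ω e)‖ ≤ 1)
    (hfD : ∀ x y, ‖f x - f y‖ ≤ G.D)
    (T : Finset E) (hT : ∀ x, ∃ c ∈ T, ‖f x - c‖ ≤ 1) (hL : 4 * T.card ≤ G.d) :
    ∃ (ι : Type) (_ : Fintype ι) (a : Fin G.N → ι → ℝ) (v : ι → E),
      (∀ α, ‖v α‖ ≤ 1) ∧
      (∀ x y, f x - f y = ∑ α, (a x α - a y α) • v α) ∧
      (∀ e : Fin G.N × Fin G.d, n1 (a e.1 - a (G.ω e)) ≤ 1200) ∧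
      (∀ x y, n1 (a x - a y) ≤ 1200 * G.D) := by
  classical
  obtain ⟨b, ⟨x0, hx0⟩, hconc⟩ := concentration G hG f hf T hT hL
  have hD1 : (1:ℝ) ≤ G.D := by exact_mod_cast hG.hD
  set g : Fin G.N → E := fun x => f x - b with hg
  have hgf : ∀ x y, g x - g y = f x - f y := fun x y => by simp [hg]
  have hgb : ∀ x, ‖g x‖ ≤ G.D + 1 := by
    intro x
    have : g x = (f x - f x0) + (f x0 - b) := by simp [hg]
    rw [this]
    exact (norm_add_le _ _).trans (add_le_add (hfD _ _) hx0)
  have hgl : ∀ e : Fin G.N × Fin G.d, ‖g e.1 - g (G.ω e)‖ ≤ 1 := fun e => by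
    rw [hgf]; exact hf e
  -- scale pieces
  have hpiece : ∀ i : ℕ, ∃ (ι : Type) (_ : Fintype ι) (a : Fin G.N → ι → ℝ) (v : ι → E),
      (∀ α, ‖v α‖ ≤ 1) ∧
      (∀ x, rr i < ‖g x‖ → ‖g x‖ < 4 * rr i → ∑ α, a x α • v α = g x) ∧
      (∀ x, n1 (a x) ≤ 8 * rr i) ∧
      (∀ e : Fin G.N × Fin G.d, rr i < ‖g e.1‖ → ‖g e.1‖ < 4 * rr i → rr i < ‖g (G.ω e)‖ →
        ‖g (G.ω e)‖ < 4 * rr i → n1 (a e.1 - a (G.ω e)) ≤ 260) := by
    intro i
    have hcast : ((16 * 2 ^ i : ℕ) : ℝ) = rr i := by unfold rr; push_cast; ring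
    have := scale_piece G hG g hgl (16 * 2 ^ i) (2 ^ i) (by positivity) le_rfl Nat.one_le_two_pow ?_
    · rw [hcast] at this; exact this
    · intro U hU
      rw [hcast] at hU
      by_cases hne : U = ∅
      · exact Or.inr hne
      · left
        obtain ⟨x, hx⟩ := Finset.nonempty_iff_ne_empty.2 hne
        have h1 : rr i < G.D + 1 := (hU x hx).trans_le (hgb x)
        have h2 : 16 * 2 ^ i < G.D + 1 := by
          rw [← hcast] at h1; exact_mod_cast h1
        have h2' : 2 ^ i ≤ G.D := by omega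
        refine ⟨h2', ?_⟩
        set m := 16 * 2 ^ i - 2 with hm
        have hp1 : 1 ≤ 2 ^ i := Nat.one_le_two_pow
        have hm8 : 8 * 2 ^ i ≤ m := by omega
        have hm2 : m + 2 = 16 * 2 ^ i := by omega
        have hsub : U ⊆ univ.filter (fun x => (m:ℝ) + 2 < ‖f x - b‖) := by
          intro y hy
          rw [mem_filter]
          refine ⟨mem_univ _, ?_⟩
          have h3 := hU y hy
          have h4 : (m:ℝ) + 2 = rr i := by rw [← hcast, ← hm2]; push_cast; ring
          rw [h4]; exact h3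
        have h5 := hconc m
        have h6 : G.d ^ m * U.card ≤ 8 ^ m * G.N :=
          (Nat.mul_le_mul_left _ (Finset.card_le_card hsub)).trans h5
        -- 8^m * d^(4k) ≤ d^m
        have h7 : 8 ^ m * G.d ^ (4 * 2 ^ i) ≤ G.d ^ m := by
          have h8 : 8 ^ (8 * 2 ^ i) * G.d ^ (4 * 2 ^ i) ≤ G.d ^ (8 * 2 ^ i) := by
            have h9 : (8:ℕ) ^ (8 * 2 ^ i) = 64 ^ (4 * 2 ^ i) := by
              rw [show (64:ℕ) = 8 ^ 2 by norm_num, ← pow_mul]; congr 1; ring
            have h10 : G.d ^ (8 * 2 ^ i) = G.d ^ (4 * 2 ^ i) * G.d ^ (4 * 2 ^ i) := by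
              rw [← pow_add]; congr 1; ring
            rw [h9, h10]
            exact Nat.mul_le_mul_right _ (Nat.pow_le_pow_left hG.hd _)
          have h11 : 8 ^ (m - 8 * 2 ^ i) ≤ G.d ^ (m - 8 * 2 ^ i) :=
            Nat.pow_le_pow_left (le_trans (by norm_num) hG.hd) _
          calc 8 ^ m * G.d ^ (4 * 2 ^ i)
              = 8 ^ (m - 8 * 2 ^ i) * (8 ^ (8 * 2 ^ i) * G.d ^ (4 * 2 ^ i)) := by
                rw [← mul_assoc, ← pow_add]; congr 2; omega
            _ ≤ G.d ^ (m - 8 * 2 ^ i) * G.d ^ (8 * 2 ^ i) := Nat.mul_le_mul h11 h8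
            _ = G.d ^ m := by rw [← pow_add]; congr 1; omega
        have h12 : 8 ^ m * (G.d ^ (4 * 2 ^ i) * U.card) ≤ 8 ^ m * G.N := by
          calc _ = 8 ^ m * G.d ^ (4 * 2 ^ i) * U.card := by ring
            _ ≤ G.d ^ m * U.card := Nat.mul_le_mul_right _ h7
            _ ≤ _ := h6
        exact Nat.le_of_mul_le_mul_left h12 (by positivity)
  choose ι' hι' a' v' hv' hsum' hn' hd' using hpiece
  -- assemble
  let K := G.D
  let ι := Fin G.N ⊕ (Σ i : Fin K, ι' i)
  let ps : ℕ → Fin G.N → ℝ := fun i x => psi i ‖g x‖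
  let a0 : Fin G.N → Fin G.N → ℝ := fun x => (32 * (1 - phi (rr 0) ‖g x‖)) • ee x
  let a : Fin G.N → ι → ℝ := fun x => Sum.elim (a0 x) (fun p => ps p.1 x * a' p.1 x p.2)
  let v : ι → E := Sum.elim (fun y => if ‖g y‖ ≤ 32 then (1/32 : ℝ) • g y else 0)
    (fun p => v' p.1 p.2)
  have hn1 : ∀ x y, n1 (a x - a y) = n1 (a0 x - a0 y) +
      ∑ i : Fin K, n1 (ps i x • a' i x - ps i y • a' i y) := by
    intro x y
    unfold n1
    rw [Fintype.sum_sum_type, Fintype.sum_sigma]
    rfl
  have hrr0 : rr 0 = 16 := by unfold rr; norm_num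
  have hphidiff : ∀ x y, ‖g x - g y‖ ≤ 1 → |‖g x‖ - ‖g y‖| ≤ 1 := fun x y h =>
    (abs_norm_sub_norm_le _ _).trans h
  have hn1a : ∀ x, n1 (a0 x) ≤ 32 := by
    intro x
    simp only [a0]
    rw [n1_smul, n1_ee, mul_one, abs_of_nonneg (by linarith [phi_le_one (rr 0) ‖g x‖])]
    linarith [phi_nonneg (rr 0) ‖g x‖]
  have hn1a' : ∀ x y, n1 (a0 x - a0 y) ≤ 64 := fun x y =>
    (n1_sub_le _ _).trans (by linarith [hn1a x, hn1a y])
  -- key term estimate for edges
  have hterm : ∀ (e : Fin G.N × Fin G.d) (i : ℕ),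
      n1 (ps i e.1 • a' i e.1 - ps i (G.ω e) • a' i (G.ω e)) ≤
        276 * ((if rr i < ‖g e.1‖ ∧ ‖g e.1‖ < 4 * rr i then 1 else 0) +
          (if rr i < ‖g (G.ω e)‖ ∧ ‖g (G.ω e)‖ < 4 * rr i then 1 else 0)) := by
    intro e i
    set x := e.1 with hx
    set y := G.ω e with hy
    have hlip : |ps i x - ps i y| ≤ 2 / rr i := psi_lip i _ _ (hphidiff x y (hgl e))
    have hr := rr_pos i
    have h16 : 2 / rr i * (8 * rr i) = 16 := by field_simp; norm_num
    by_cases hxi : rr i < ‖g x‖ ∧ ‖g x‖ < 4 * rr i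
    · by_cases hyi : rr i < ‖g y‖ ∧ ‖g y‖ < 4 * rr i
      · rw [if_pos hxi, if_pos hyi]
        have h1 : ps i x • a' i x - ps i y • a' i y
            = (ps i x - ps i y) • a' i x + ps i y • (a' i x - a' i y) := by
          rw [sub_smul, smul_sub]; abel
        rw [h1]
        refine (n1_add_le _ _).trans ?_
        rw [n1_smul, n1_smul]
        have h2 : |ps i x - ps i y| * n1 (a' i x) ≤ 16 := by
          rw [← h16]
          exact mul_le_mul hlip (hn' i x) (n1_nonneg _) (by positivity)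
        have h3 : |ps i y| * n1 (a' i x - a' i y) ≤ 1 * 260 := by
          apply mul_le_mul _ (hd' i e hxi.1 hxi.2 hyi.1 hyi.2) (n1_nonneg _) zero_le_one
          rw [abs_of_nonneg (psi_nonneg _ _)]; exact psi_le_one _ _
        linarith
      · rw [if_pos hxi, if_neg hyi]
        have h0 : ps i y = 0 := psi_eq_zero i _ hyi
        rw [h0, zero_smul, sub_zero, n1_smul]
        rw [h0, sub_zero] at hlip
        have h2 : |ps i x| * n1 (a' i x) ≤ 16 := by
          rw [← h16]
          exact mul_le_mul hlip (hn' i x) (n1_nonneg _) (by positivity)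
        linarith
    · have h0 : ps i x = 0 := psi_eq_zero i _ hxi
      by_cases hyi : rr i < ‖g y‖ ∧ ‖g y‖ < 4 * rr i
      · rw [if_neg hxi, if_pos hyi]
        rw [h0, zero_smul, zero_sub, n1_neg, n1_smul]
        rw [h0, zero_sub, abs_neg] at hlip
        have h2 : |ps i y| * n1 (a' i y) ≤ 16 := by
          rw [← h16]
          exact mul_le_mul hlip (hn' i y) (n1_nonneg _) (by positivity)
        linarith
      · have h0' : ps i y = 0 := psi_eq_zero i _ hyi
        rw [if_neg hxi, if_neg hyi, h0, h0', zero_smul, zero_smul, sub_zero, n1_zero]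
        norm_num
  have hsumind : ∀ t : ℝ, ∑ i : Fin K, (if rr i < t ∧ t < 4 * rr i then (1:ℝ) else 0) ≤ 2 := by
    intro t
    rw [Fin.sum_univ_eq_sum_range (fun i => if rr i < t ∧ t < 4 * rr i then (1:ℝ) else 0) K]
    rw [← Finset.sum_filter, Finset.sum_const, nsmul_eq_mul, mul_one]
    exact_mod_cast card_active K t
  refine ⟨ι, inferInstance, a, v, ?_, ?_, ?_, ?_⟩
  · rintro (y | p)
    · simp only [v, Sum.elim_inl]
      split_ifs with h
      · rw [norm_smul, Real.norm_eq_abs, abs_of_pos (by norm_num)]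
        linarith
      · rw [norm_zero]; norm_num
    · simp only [v, Sum.elim_inr]; exact hv' _ _
  · -- reconstruction
    have hrec : ∀ x, ∑ α, a x α • v α = g x := by
      intro x
      rw [Fintype.sum_sum_type, Fintype.sum_sigma]
      have h1 : ∑ y, a x (Sum.inl y) • v (Sum.inl y) = (1 - phi (rr 0) ‖g x‖) • g x := by
        simp only [a, v, Sum.elim_inl, a0, Pi.smul_apply, smul_eq_mul]
        have : ∀ y, (32 * (1 - phi (rr 0) ‖g x‖) * (ee x : Fin G.N → ℝ) y) •
            (if ‖g y‖ ≤ 32 then (1/32 : ℝ) • g y else 0) =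
            (ee x : Fin G.N → ℝ) y • ((32 * (1 - phi (rr 0) ‖g x‖)) •
            (if ‖g y‖ ≤ 32 then (1/32 : ℝ) • g y else 0)) := by
          intro y; rw [smul_smul, mul_comm]
        simp only [this]
        rw [sum_ee_smul (fun y => (32 * (1 - phi (rr 0) ‖g x‖)) •
            (if ‖g y‖ ≤ 32 then (1/32 : ℝ) • g y else 0)) x]
        by_cases h : ‖g x‖ ≤ 32
        · rw [if_pos h, smul_smul]; congr 1; ring
        · rw [if_neg h, smul_zero, phi_one (rr_pos 0) (by rw [hrr0]; linarith), sub_self, zero_smul]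
      have h2 : ∀ i : Fin K, ∑ y, a x (Sum.inr ⟨i, y⟩) • v (Sum.inr ⟨i, y⟩) = ps i x • g x := by
        intro i
        simp only [a, v, Sum.elim_inr]
        have : ∀ y : ι' i, (ps i x * a' i x y) • v' i y = ps i x • (a' i x y • v' i y) := by
          intro y; rw [smul_smul]
        simp only [this]
        rw [← Finset.smul_sum]
        by_cases h : rr i < ‖g x‖ ∧ ‖g x‖ < 4 * rr i
        · rw [hsum' i x h.1 h.2]
        · have : ps i x = 0 := psi_eq_zero i _ h
          rw [this, zero_smul, zero_smul]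
      rw [h1]
      simp only [h2]
      rw [← Finset.sum_smul, ← add_smul]
      have h3 : ∑ i : Fin K, ps i x = phi (rr 0) ‖g x‖ := by
        rw [Fin.sum_univ_eq_sum_range (fun i => ps i x) K, psi_sum]
        have : phi (rr K) ‖g x‖ = 0 := by
          apply phi_zero (rr_pos _)
          refine (hgb x).trans ?_
          have h5 : (G.D : ℝ) + 1 ≤ 2 ^ G.D := by
            exact_mod_cast Nat.lt_two_pow_self
          have h6 : (0:ℝ) < 2 ^ G.D := by positivity
          unfold rr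
          change (G.D : ℝ) + 1 ≤ 16 * 2 ^ G.D
          linarith
        rw [this, sub_zero]
      rw [h3, sub_add_cancel, one_smul]
    intro x y
    rw [← hgf, ← hrec x, ← hrec y, ← Finset.sum_sub_distrib]
    exact Finset.sum_congr rfl (fun α _ => by rw [sub_smul])
  · intro e
    rw [hn1]
    have h1 : ∑ i : Fin K, n1 (ps i e.1 • a' i e.1 - ps i (G.ω e) • a' i (G.ω e)) ≤ 276 * 4 := by
      refine (Finset.sum_le_sum (fun (i : Fin K) _ => hterm e (i : ℕ))).trans ?_
      rw [← Finset.mul_sum, Finset.sum_add_distrib]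
      have := hsumind ‖g e.1‖
      have := hsumind ‖g (G.ω e)‖
      linarith
    linarith [hn1a' e.1 (G.ω e)]
  · intro x y
    have hone : ∀ x, ∑ i : Fin K, n1 (ps i x • a' i x) ≤ 8 * (G.D + 1) := by
      intro x
      have h1 : ∀ i : Fin K, n1 (ps i x • a' i x) ≤ ps i x * (8 * (G.D + 1)) := by
        intro i
        rw [n1_smul, abs_of_nonneg (psi_nonneg _ _)]
        by_cases h : rr i < ‖g x‖ ∧ ‖g x‖ < 4 * rr i
        · apply mul_le_mul_of_nonneg_left _ (psi_nonneg _ _)
          refine (hn' i x).trans ?_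
          have := h.1.le.trans (hgb x)
          linarith
        · have : ps i x = 0 := psi_eq_zero i _ h
          change ps i x * _ ≤ _
          rw [this]; simp
      refine (Finset.sum_le_sum (fun i _ => h1 i)).trans ?_
      rw [← Finset.sum_mul, Fin.sum_univ_eq_sum_range (fun i => ps i x) K, psi_sum]
      have h2 : phi (rr 0) ‖g x‖ - phi (rr K) ‖g x‖ ≤ 1 := by
        linarith [phi_le_one (rr 0) ‖g x‖, phi_nonneg (rr K) ‖g x‖]
      have h3 : (0:ℝ) ≤ 8 * (G.D + 1) := by positivity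
      nlinarith
    rw [hn1]
    have h1 : ∑ i : Fin K, n1 (ps i x • a' i x - ps i y • a' i y) ≤
        8 * (G.D + 1) + 8 * (G.D + 1) := by
      refine (Finset.sum_le_sum (fun i _ => n1_sub_le _ _)).trans ?_
      rw [Finset.sum_add_distrib]
      exact add_le_add (hone x) (hone y)
    linarith [hn1a' x y]

end Pool.Agent.Work.MP_8329b3_an
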