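import Mathlib
import Pool.Agent.Work.MP_8329b3_an.PropA
import Pool.Agent.Work.MP_8329b3_an.Poincare

set_option autoImplicit false

open Finset

namespace Pool.Agent.Work.MP_8329b3_an

/-- ambient sup-normed space of differences -/
abbrev Amb (G : GData) : Type := (Fin G.N × Fin G.d → ℝ) × (Fin G.N × Fin G.N → ℝ)

/-- the embedding of functions modulo constants into the space of differences -/
noncomputable def Lam (G : GData) : (Fin G.N → ℝ) →ₗ[ℝ] Amb G where
  toFun f := (fun e => f e.1 - f (G.ω e), fun p => (f p.1 - f p.2) / G.D)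
  map_add' f g := by
    ext p
    · simp only [Pi.add_apply, Prod.fst_add]; ring
    · simp only [Pi.add_apply, Prod.snd_add]; ring
  map_smul' c f := by
    ext p
    · simp only [Pi.smul_apply, smul_eq_mul, RingHom.id_apply, Prod.smul_fst]; ring
    · simp only [Pi.smul_apply, smul_eq_mul, RingHom.id_apply, Prod.smul_snd]; ring

/-- the space of Lipschitz functions modulo constants -/
def LipS (G : GData) : Type := ↥(LinearMap.range (Lam G))

noncomputable instance (G : GData) : NormedAddCommGroup (LipS G) :=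
  inferInstanceAs (NormedAddCommGroup ↥(LinearMap.range (Lam G)))
noncomputable instance (G : GData) : NormedSpace ℝ (LipS G) :=
  inferInstanceAs (NormedSpace ℝ ↥(LinearMap.range (Lam G)))

/-- inclusion into the ambient space -/
noncomputable def incl (G : GData) : LipS G →L[ℝ] Amb G :=
  LinearMap.mkContinuous
    { toFun := fun w => (show ↥(LinearMap.range (Lam G)) from w).1
      map_add' := fun _ _ => rfl
      map_smul' := fun _ _ => rfl } 1 (fun w => by rw [one_mul]; exact le_refl _)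

theorem incl_norm (G : GData) (w : LipS G) : ‖incl G w‖ = ‖w‖ := rfl

/-- the element of `LipS` attached to a function -/
noncomputable def toLipS (G : GData) (f : Fin G.N → ℝ) : LipS G :=
  (⟨Lam G f, LinearMap.mem_range_self _ f⟩ : ↥(LinearMap.range (Lam G)))

theorem incl_toLipS (G : GData) (f : Fin G.N → ℝ) : incl G (toLipS G f) = Lam G f := rfl

theorem toLipS_surj (G : GData) (w : LipS G) : ∃ f, w = toLipS G f := by
  obtain ⟨w, f, rfl⟩ := w
  exact ⟨f, rfl⟩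

/-- the functional `f ↦ f x - f y` -/
noncomputable def dd (G : GData) (x y : Fin G.N) : LipS G →L[ℝ] ℝ :=
  (G.D : ℝ) • ((ContinuousLinearMap.proj (x, y) : (Fin G.N × Fin G.N → ℝ) →L[ℝ] ℝ).comp
    ((ContinuousLinearMap.snd ℝ (Fin G.N × Fin G.d → ℝ) (Fin G.N × Fin G.N → ℝ)).comp (incl G)))

/-- the span of the functionals -/
noncomputable def FSub (G : GData) : Submodule ℝ (LipS G →L[ℝ] ℝ) :=
  Submodule.span ℝ (Set.range (fun p : Fin G.N × Fin G.N => dd G p.1 p.2))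

/-- the Lipschitz free space of the truncated graph metric -/
def FS (G : GData) : Type := ↥(FSub G)

noncomputable instance (G : GData) : NormedAddCommGroup (FS G) :=
  inferInstanceAs (NormedAddCommGroup ↥(FSub G))
noncomputable instance (G : GData) : NormedSpace ℝ (FS G) :=
  inferInstanceAs (NormedSpace ℝ ↥(FSub G))
instance (G : GData) : FiniteDimensional ℝ (FS G) := by
  have : FiniteDimensional ℝ ↥(FSub G) := FiniteDimensional.span_of_finite ℝ (Set.finite_range _)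
  exact this

/-- evaluate an element of the free space at a function -/
noncomputable def evalFS (G : GData) (w : LipS G) : FS G →L[ℝ] ℝ :=
  LinearMap.mkContinuous
    { toFun := fun z => (show ↥(FSub G) from z).1 w
      map_add' := fun _ _ => rfl
      map_smul' := fun _ _ => rfl } ‖w‖ (fun z => by
        rw [mul_comm]; exact ContinuousLinearMap.le_opNorm (show ↥(FSub G) from z).1 w)

theorem evalFS_norm_le (G : GData) (w : LipS G) : ‖evalFS G w‖ ≤ ‖w‖ :=
  LinearMap.mkContinuous_norm_le _ (norm_nonneg _) _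

/-- the point differences in the free space -/
noncomputable def de (G : GData) (x y : Fin G.N) : FS G :=
  (⟨dd G x y, Submodule.subset_span ⟨(x, y), rfl⟩⟩ : ↥(FSub G))

theorem dd_apply (G : GData) (hD : 1 ≤ G.D) (x y : Fin G.N) (f : Fin G.N → ℝ) :
    dd G x y (toLipS G f) = f x - f y := by
  have h : (G.D : ℝ) ≠ 0 := by
    have : 0 < G.D := hD
    exact_mod_cast this.ne'
  have : dd G x y (toLipS G f) = G.D * ((f x - f y) / G.D) := rfl
  rw [this]
  field_simp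

theorem evalFS_de (G : GData) (hD : 1 ≤ G.D) (x y : Fin G.N) (f : Fin G.N → ℝ) :
    evalFS G (toLipS G f) (de G x y) = f x - f y := dd_apply G hD x y f

theorem dd_norm_le (G : GData) (x y : Fin G.N) : ‖dd G x y‖ ≤ G.D := by
  apply ContinuousLinearMap.opNorm_le_bound _ (by positivity)
  intro w
  have h1 : dd G x y w = G.D * ((incl G w).2 (x, y)) := rfl
  rw [h1, norm_mul, Real.norm_natCast]
  apply mul_le_mul_of_nonneg_left _ (by positivity)
  calc ‖(incl G w).2 (x, y)‖ ≤ ‖(incl G w).2‖ := norm_le_pi_norm _ _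
    _ ≤ ‖incl G w‖ := norm_snd_le _
    _ = ‖w‖ := rfl

theorem dd_edge_norm_le (G : GData) (hD : 1 ≤ G.D) (e : Fin G.N × Fin G.d) :
    ‖dd G e.1 (G.ω e)‖ ≤ 1 := by
  apply ContinuousLinearMap.opNorm_le_bound _ zero_le_one
  intro w
  obtain ⟨f, rfl⟩ := toLipS_surj G w
  rw [dd_apply G hD, one_mul]
  calc ‖f e.1 - f (G.ω e)‖ = ‖(Lam G f).1 e‖ := rfl
    _ ≤ ‖(Lam G f).1‖ := norm_le_pi_norm _ _
    _ ≤ ‖Lam G f‖ := norm_fst_le _
    _ = ‖toLipS G f‖ := rfl

theorem dd_add (G : GData) (x y z : Fin G.N) (hD : 1 ≤ G.D) : dd G x y + dd G y z = dd G x z := by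
  ext w
  obtain ⟨f, rfl⟩ := toLipS_surj G w
  have : (dd G x y + dd G y z) (toLipS G f) = dd G x y (toLipS G f) + dd G y z (toLipS G f) := rfl
  rw [this, dd_apply G hD, dd_apply G hD, dd_apply G hD]
  ring

theorem de_add (G : GData) (hD : 1 ≤ G.D) (x y z : Fin G.N) : de G x y + de G y z = de G x z :=
  Subtype.ext (dd_add G x y z hD)

theorem de_self (G : GData) (hD : 1 ≤ G.D) (x : Fin G.N) : de G x x = 0 := by
  have := de_add G hD x x x
  exact add_eq_left.1 this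

theorem de_sub (G : GData) (hD : 1 ≤ G.D) (x y z : Fin G.N) : de G x z - de G y z = de G x y := by
  rw [← de_add G hD x y z]; abel

theorem de_norm_le (G : GData) (x y : Fin G.N) : ‖de G x y‖ ≤ G.D := dd_norm_le G x y
theorem de_edge_norm_le (G : GData) (hD : 1 ≤ G.D) (e : Fin G.N × Fin G.d) :
    ‖de G e.1 (G.ω e)‖ ≤ 1 := dd_edge_norm_le G hD e

theorem Lam_norm_le (G : GData) (hD : 1 ≤ G.D) (f : Fin G.N → ℝ) (L : ℝ) (hL : 0 ≤ L)
    (h1 : ∀ e : Fin G.N × Fin G.d, |f e.1 - f (G.ω e)| ≤ L) (h2 : ∀ x y, |f x - f y| ≤ L * G.D) :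
    ‖Lam G f‖ ≤ L := by
  have hD' : (0:ℝ) < G.D := by exact_mod_cast hD
  apply norm_prod_le_iff.2
  constructor
  · rw [pi_norm_le_iff_of_nonneg hL]
    intro e; exact h1 e
  · rw [pi_norm_le_iff_of_nonneg hL]
    intro p
    change ‖(f p.1 - f p.2) / (G.D : ℝ)‖ ≤ L
    rw [norm_div, Real.norm_natCast, div_le_iff₀ hD']
    exact h2 _ _

/-- universal property for scalar functions -/
theorem univ_prop (G : GData) (hD : 1 ≤ G.D) (f : Fin G.N → ℝ) (L : ℝ) (hL : 0 ≤ L)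
    (h1 : ∀ e : Fin G.N × Fin G.d, |f e.1 - f (G.ω e)| ≤ L) (h2 : ∀ x y, |f x - f y| ≤ L * G.D) :
    ∃ φ : FS G →L[ℝ] ℝ, ‖φ‖ ≤ L ∧ ∀ x y, φ (de G x y) = f x - f y := by
  refine ⟨evalFS G (toLipS G f), ?_, ?_⟩
  · refine (evalFS_norm_le _ _).trans ?_
    exact Lam_norm_le G hD f L hL h1 h2
  · intro x y
    exact evalFS_de G hD x y f

theorem de_norm_ge (G : GData) (hD : 1 ≤ G.D) (f : Fin G.N → ℝ)
    (h1 : ∀ e : Fin G.N × Fin G.d, |f e.1 - f (G.ω e)| ≤ 1) (h2 : ∀ x y, |f x - f y| ≤ G.D)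
    (x y : Fin G.N) : |f x - f y| ≤ ‖de G x y‖ := by
  obtain ⟨φ, hφ, hφ'⟩ := univ_prop G hD f 1 zero_le_one h1 (by simpa using h2)
  rw [← hφ']
  calc |φ (de G x y)| = ‖φ (de G x y)‖ := rfl
    _ ≤ ‖φ‖ * ‖de G x y‖ := φ.le_opNorm _
    _ ≤ 1 * ‖de G x y‖ := mul_le_mul_of_nonneg_right hφ (norm_nonneg _)
    _ = _ := one_mul _

theorem de_span (G : GData) :
    Submodule.span ℝ (Set.range (fun p : Fin G.N × Fin G.N => de G p.1 p.2)) = ⊤ := by
  have h : (Set.range (fun p : Fin G.N × Fin G.N => de G p.1 p.2)) =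
      (Subtype.val ⁻¹' (Set.range (fun p : Fin G.N × Fin G.N => dd G p.1 p.2)) : Set ↥(FSub G)) := by
    ext ⟨z, hz⟩
    constructor
    · rintro ⟨p, hp⟩
      exact ⟨p, congrArg Subtype.val hp⟩
    · rintro ⟨p, hp⟩
      exact ⟨p, Subtype.ext hp⟩
  rw [h]
  exact Submodule.span_span_coe_preimage

/-- two linear maps agreeing on the `de` agree -/
theorem ext_de (G : GData) {F : Type} [AddCommGroup F] [Module ℝ F] (A B : FS G →ₗ[ℝ] F)
    (h : ∀ x y, A (de G x y) = B (de G x y)) : A = B := by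
  apply LinearMap.ext_on_range (v := fun p : Fin G.N × Fin G.N => de G p.1 p.2) (de_span G)
  intro p; exact h _ _

/-- covering condition -/
def CovOK (Ga Gb : GData) : Prop :=
  ∃ T0 : Finset (FS Ga), (∀ v : FS Ga, ‖v‖ ≤ Gb.D → ∃ c ∈ T0, ‖v - c‖ ≤ 1) ∧ 4 * T0.card ≤ Gb.d

/-- Operators from `F(Gb)` to `F(Ga)` are dominated by maps into `l1`. -/
theorem factor (Ga Gb : GData) (hb : Gb.Good) (hc : CovOK Ga Gb)
    (T : FS Gb →L[ℝ] FS Ga) :
    ∃ (ι : Type) (_ : Fintype ι) (φ : ι → FS Gb →L[ℝ] ℝ),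
      (∀ z, ‖T z‖ ≤ ‖T‖ * ∑ α, |φ α z|) ∧ (∀ z, ∑ α, |φ α z| ≤ 1200 * ‖z‖) := by
  classical
  by_cases hT : T = 0
  · refine ⟨Empty, inferInstance, fun a => a.elim, ?_, ?_⟩
    · intro z; rw [hT]; simp
    · intro z; simp
  have hK : 0 < ‖T‖ := norm_pos_iff.2 hT
  obtain ⟨T0, hT0, hcard⟩ := hc
  have hD := hb.hD
  let x0 : Fin Gb.N := ⟨0, hb.hN⟩
  let f : Fin Gb.N → FS Ga := fun x => ‖T‖⁻¹ • T (de Gb x x0)
  have hfsub : ∀ x y, f x - f y = ‖T‖⁻¹ • T (de Gb x y) := by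
    intro x y
    simp only [f]
    rw [← smul_sub, ← map_sub, de_sub Gb hD]
  have hTle : ∀ z, ‖‖T‖⁻¹ • T z‖ ≤ ‖z‖ := by
    intro z
    rw [norm_smul, norm_inv, norm_norm, inv_mul_le_iff₀ hK]
    exact T.le_opNorm z
  have hf1 : ∀ e : Fin Gb.N × Fin Gb.d, ‖f e.1 - f (Gb.ω e)‖ ≤ 1 := by
    intro e
    rw [hfsub]
    exact (hTle _).trans (de_edge_norm_le Gb hD e)
  have hf2 : ∀ x y, ‖f x - f y‖ ≤ Gb.D := by
    intro x y
    rw [hfsub]
    exact (hTle _).trans (de_norm_le Gb x y)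
  have hf3 : ∀ x, ∃ c ∈ T0, ‖f x - c‖ ≤ 1 := by
    intro x
    exact hT0 _ ((hTle _).trans (de_norm_le Gb x x0))
  obtain ⟨ι, hι, a, v, hv, hav, hae, haD⟩ := propA Gb hb f hf1 hf2 T0 hf3 hcard
  · -- functionals
    have hφ : ∀ s : ι → ℝ, (∀ α, |s α| ≤ 1) → ∃ φ : FS Gb →L[ℝ] ℝ, ‖φ‖ ≤ 1200 ∧
        ∀ x y, φ (de Gb x y) = ∑ α, s α * (a x α - a y α) := by
      intro s hs
      have hb1 : ∀ x y, |∑ α, s α * a x α - ∑ α, s α * a y α| ≤ n1 (a x - a y) := by
        intro x y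
        rw [← Finset.sum_sub_distrib]
        refine (Finset.abs_sum_le_sum_abs _ _).trans ?_
        unfold n1
        refine Finset.sum_le_sum (fun α _ => ?_)
        rw [← mul_sub, abs_mul]
        have := hs α
        have h2 : 0 ≤ |a x α - a y α| := abs_nonneg _
        have h3 : (a x - a y) α = a x α - a y α := rfl
        rw [h3]
        nlinarith
      obtain ⟨φ, h1, h2⟩ := univ_prop Gb hD (fun x => ∑ α, s α * a x α) 1200 (by norm_num)
        (fun e => (hb1 _ _).trans (hae e)) (fun x y => (hb1 _ _).trans (haD x y))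
      refine ⟨φ, h1, fun x y => ?_⟩
      rw [h2, ← Finset.sum_sub_distrib]
      exact Finset.sum_congr rfl (fun α _ => by ring)
    have hφα : ∀ α : ι, ∃ φ : FS Gb →L[ℝ] ℝ, ∀ x y, φ (de Gb x y) = a x α - a y α := by
      intro α
      obtain ⟨φ, _, h2⟩ := hφ (fun β => if β = α then 1 else 0) (by intro β; split_ifs <;> simp)
      refine ⟨φ, fun x y => ?_⟩
      rw [h2]; simp
    choose φ hφ1 using hφα
    refine ⟨ι, hι, φ, ?_, ?_⟩
    · intro z
      have hlin : (‖T‖⁻¹ • T : FS Gb →L[ℝ] FS Ga).toLinearMap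
          = ∑ α, (LinearMap.toSpanSingleton ℝ (FS Ga) (v α)).comp (φ α).toLinearMap := by
        apply ext_de
        intro x y
        have h1 : (‖T‖⁻¹ • T : FS Gb →L[ℝ] FS Ga).toLinearMap (de Gb x y) = f x - f y := by
          rw [hfsub]; rfl
        rw [h1, hav x y, LinearMap.sum_apply]
        apply Finset.sum_congr rfl
        intro α _
        rw [LinearMap.comp_apply, LinearMap.toSpanSingleton_apply]
        change _ = (φ α (de Gb x y)) • v α
        rw [hφ1]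
      have h2 : ‖T‖⁻¹ • T z = ∑ α, φ α z • v α := by
        have := LinearMap.congr_fun hlin z
        rw [LinearMap.sum_apply] at this
        exact this
      have h3 : T z = ‖T‖ • ∑ α, φ α z • v α := by
        rw [← h2, smul_smul, mul_inv_cancel₀ hK.ne', one_smul]
      rw [h3, norm_smul, norm_norm]
      apply mul_le_mul_of_nonneg_left _ hK.le
      refine (norm_sum_le _ _).trans (Finset.sum_le_sum (fun α _ => ?_))
      rw [norm_smul, Real.norm_eq_abs]
      have := hv α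
      have h4 : 0 ≤ |φ α z| := abs_nonneg _
      nlinarith
    · intro z
      let s : ι → ℝ := fun α => SignType.sign (φ α z)
      have hs : ∀ α, |s α| ≤ 1 := by
        intro α
        simp only [s]
        rcases lt_trichotomy (φ α z) 0 with h | h | h
        · rw [sign_neg h]; simp
        · rw [h]; simp
        · rw [sign_pos h]; simp
      obtain ⟨Ψ, hΨ1, hΨ2⟩ := hφ s hs
      have hlin : Ψ.toLinearMap = ∑ α, s α • (φ α).toLinearMap := by
        apply ext_de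
        intro x y
        rw [LinearMap.sum_apply]
        change Ψ (de Gb x y) = _
        rw [hΨ2]
        apply Finset.sum_congr rfl
        intro α _
        rw [LinearMap.smul_apply]
        change _ = s α * φ α (de Gb x y)
        rw [hφ1]
      have h2 : Ψ z = ∑ α, s α * φ α z := by
        have := LinearMap.congr_fun hlin z
        rw [LinearMap.sum_apply] at this
        exact this
      have h3 : ∑ α, |φ α z| = Ψ z := by
        rw [h2]
        apply Finset.sum_congr rfl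
        intro α _
        exact (sign_mul_self (φ α z)).symm
      rw [h3]
      calc Ψ z ≤ ‖Ψ z‖ := le_abs_self _
        _ ≤ ‖Ψ‖ * ‖z‖ := Ψ.le_opNorm z
        _ ≤ 1200 * ‖z‖ := mul_le_mul_of_nonneg_right hΨ1 (norm_nonneg _)

/-- The key finite inequality. -/
theorem key_ineq (Ga Gb : GData) (ha : Ga.Good) (hb : Gb.Good) (hc : CovOK Ga Gb)
    (T : FS Gb →L[ℝ] FS Ga) (J : FS Ga →L[ℝ] FS Gb) :
    (Ga.d:ℝ) * ∑ x, ∑ y, ‖T (J (de Ga x y))‖ ≤
      19200 * ‖T‖ * Ga.N * ∑ e : Fin Ga.N × Fin Ga.d, ‖J (de Ga e.1 (Ga.ω e))‖ := by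
  classical
  obtain ⟨ι, hι, φ, h1, h2⟩ := factor Ga Gb hb hc T
  let x0 : Fin Ga.N := ⟨0, ha.hN⟩
  have hg : ∀ α, (Ga.d:ℝ) * ∑ x, ∑ y, |φ α (J (de Ga x y))| ≤
      16 * Ga.N * ∑ e : Fin Ga.N × Fin Ga.d, |φ α (J (de Ga e.1 (Ga.ω e)))| := by
    intro α
    have h3 : ∀ x y, φ α (J (de Ga x y)) = φ α (J (de Ga x x0)) - φ α (J (de Ga y x0)) := by
      intro x y
      rw [← map_sub, ← map_sub, de_sub Ga ha.hD]
    have := poincare Ga ha (fun x => φ α (J (de Ga x x0)))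
    simp only [← h3] at this
    exact this
  have h4 : ∑ x, ∑ y, ‖T (J (de Ga x y))‖ ≤ ‖T‖ * ∑ α, ∑ x, ∑ y, |φ α (J (de Ga x y))| := by
    have h5 : ∑ α, ∑ x, ∑ y, |φ α (J (de Ga x y))| = ∑ x, ∑ y, ∑ α, |φ α (J (de Ga x y))| := by
      rw [Finset.sum_comm]
      exact Finset.sum_congr rfl (fun x _ => Finset.sum_comm)
    rw [h5, Finset.mul_sum]
    refine Finset.sum_le_sum (fun x _ => ?_)
    rw [Finset.mul_sum]
    exact Finset.sum_le_sum (fun y _ => h1 _)
  have h6 : (Ga.d:ℝ) * ∑ α, ∑ x, ∑ y, |φ α (J (de Ga x y))| ≤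
      16 * Ga.N * ∑ e : Fin Ga.N × Fin Ga.d, ∑ α, |φ α (J (de Ga e.1 (Ga.ω e)))| := by
    rw [Finset.mul_sum, Finset.sum_comm, Finset.mul_sum]
    exact Finset.sum_le_sum (fun α _ => hg α)
  have h7 : ∑ e : Fin Ga.N × Fin Ga.d, ∑ α, |φ α (J (de Ga e.1 (Ga.ω e)))| ≤
      1200 * ∑ e : Fin Ga.N × Fin Ga.d, ‖J (de Ga e.1 (Ga.ω e))‖ := by
    rw [Finset.mul_sum]
    exact Finset.sum_le_sum (fun e _ => h2 _)
  have hT : 0 ≤ ‖T‖ := norm_nonneg _
  calc (Ga.d:ℝ) * ∑ x, ∑ y, ‖T (J (de Ga x y))‖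
      ≤ (Ga.d:ℝ) * (‖T‖ * ∑ α, ∑ x, ∑ y, |φ α (J (de Ga x y))|) := by gcongr
    _ = ‖T‖ * ((Ga.d:ℝ) * ∑ α, ∑ x, ∑ y, |φ α (J (de Ga x y))|) := by ring
    _ ≤ ‖T‖ * (16 * Ga.N * ∑ e : Fin Ga.N × Fin Ga.d, ∑ α, |φ α (J (de Ga e.1 (Ga.ω e)))|) := by
        gcongr
    _ ≤ ‖T‖ * (16 * Ga.N * (1200 * ∑ e : Fin Ga.N × Fin Ga.d, ‖J (de Ga e.1 (Ga.ω e))‖)) := by
        gcongr
    _ = _ := by ring

end Pool.Agent.Work.MP_8329b3_an
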