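import Mathlib
import Pool.Agent.Work.MP_8329b3_an.Space

set_option autoImplicit false

open Finset

namespace Pool.Agent.Work.MP_8329b3_an

/-- undirected balls in the graph -/
def bll (G : GData) (x : Fin G.N) : ℕ → Finset (Fin G.N)
  | 0 => {x}
  | t + 1 => bll G x t ∪ ((univ.filter (fun e : Fin G.N × Fin G.d => e.1 ∈ bll G x t)).image G.ω ∪
      (univ.filter (fun e : Fin G.N × Fin G.d => G.ω e ∈ bll G x t)).image Prod.fst)

theorem bll_card (G : GData) (hG : G.Good) (x : Fin G.N) (t : ℕ) :
    (bll G x t).card ≤ (4 * G.d + 1) ^ t := by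
  induction t with
  | zero => simp [bll]
  | succ t ih =>
    rw [bll]
    have h1 : (univ.filter (fun e : Fin G.N × Fin G.d => e.1 ∈ bll G x t)).card ≤
        G.d * (bll G x t).card := by
      have : (univ.filter (fun e : Fin G.N × Fin G.d => e.1 ∈ bll G x t)) ⊆
          (bll G x t) ×ˢ (univ : Finset (Fin G.d)) := by
        intro e he
        rw [mem_filter] at he
        exact Finset.mem_product.2 ⟨he.2, mem_univ _⟩
      refine (Finset.card_le_card this).trans ?_
      rw [Finset.card_product, card_univ, Fintype.card_fin, mul_comm]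
    have h2 : (univ.filter (fun e : Fin G.N × Fin G.d => G.ω e ∈ bll G x t)).card ≤
        3 * G.d * (bll G x t).card := by
      have : (univ.filter (fun e : Fin G.N × Fin G.d => G.ω e ∈ bll G x t)) ⊆
          (bll G x t).biUnion (fun y => univ.filter (fun e : Fin G.N × Fin G.d => G.ω e = y)) := by
        intro e he
        rw [mem_filter] at he
        exact Finset.mem_biUnion.2 ⟨G.ω e, he.2, Finset.mem_filter.2 ⟨mem_univ _, rfl⟩⟩
      refine (Finset.card_le_card this).trans (Finset.card_biUnion_le.trans ?_)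
      calc ∑ y ∈ bll G x t, (univ.filter (fun e : Fin G.N × Fin G.d => G.ω e = y)).card
          ≤ ∑ y ∈ bll G x t, 3 * G.d := Finset.sum_le_sum (fun y _ => hG.indeg y)
        _ = 3 * G.d * (bll G x t).card := by rw [Finset.sum_const, smul_eq_mul, mul_comm]
    calc _ ≤ (bll G x t).card + (((univ.filter (fun e : Fin G.N × Fin G.d => e.1 ∈ bll G x t)).image G.ω).card +
            ((univ.filter (fun e : Fin G.N × Fin G.d => G.ω e ∈ bll G x t)).image Prod.fst).card) := by
          refine (Finset.card_union_le _ _).trans (Nat.add_le_add_left (Finset.card_union_le _ _) _)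
      _ ≤ (bll G x t).card + (G.d * (bll G x t).card + 3 * G.d * (bll G x t).card) := by
          gcongr
          · exact Finset.card_image_le.trans h1
          · exact Finset.card_image_le.trans h2
      _ = (4 * G.d + 1) * (bll G x t).card := by ring
      _ ≤ (4 * G.d + 1) * (4 * G.d + 1) ^ t := Nat.mul_le_mul_left _ ih
      _ = (4 * G.d + 1) ^ (t+1) := by ring

theorem bll_mono_succ (G : GData) (x : Fin G.N) (t : ℕ) : bll G x t ⊆ bll G x (t+1) := by
  rw [bll]; exact Finset.subset_union_left

theorem bll_mono (G : GData) (x : Fin G.N) {s t : ℕ} (h : s ≤ t) : bll G x s ⊆ bll G x t :=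
  monotone_nat_of_le_succ (f := bll G x) (fun t => bll_mono_succ G x t) h

/-- truncated distance from `x` -/
noncomputable def dfun (G : GData) (x : Fin G.N) (z : Fin G.N) : ℝ :=
  ∑ t ∈ range G.D, (if z ∈ bll G x t then 0 else 1)

theorem dfun_nonneg (G : GData) (x z : Fin G.N) : 0 ≤ dfun G x z :=
  Finset.sum_nonneg (fun t _ => by split_ifs <;> norm_num)

theorem dfun_le (G : GData) (x z : Fin G.N) : dfun G x z ≤ G.D := by
  unfold dfun
  calc _ ≤ ∑ t ∈ range G.D, (1:ℝ) := Finset.sum_le_sum (fun t _ => by split_ifs <;> norm_num)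
    _ = G.D := by simp

theorem dfun_step (G : GData) (hD : 1 ≤ G.D) (x z z' : Fin G.N)
    (h : ∀ t, z ∈ bll G x t → z' ∈ bll G x (t+1)) : dfun G x z' ≤ dfun G x z + 1 := by
  unfold dfun
  obtain ⟨m, hm⟩ : ∃ m, G.D = m + 1 := ⟨G.D - 1, by omega⟩
  rw [hm, Finset.sum_range_succ', Finset.sum_range_succ]
  have h1 : ∑ t ∈ range m, (if z' ∈ bll G x (t+1) then (0:ℝ) else 1) ≤
      ∑ t ∈ range m, (if z ∈ bll G x t then (0:ℝ) else 1) := by
    refine Finset.sum_le_sum (fun t _ => ?_)
    by_cases hz : z ∈ bll G x t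
    · rw [if_pos hz, if_pos (h t hz)]
    · rw [if_neg hz]; split_ifs <;> norm_num
  have h2 : (if z' ∈ bll G x 0 then (0:ℝ) else 1) ≤ 1 := by split_ifs <;> norm_num
  have h3 : (0:ℝ) ≤ (if z ∈ bll G x m then (0:ℝ) else 1) := by split_ifs <;> norm_num
  linarith

theorem dfun_edge (G : GData) (hD : 1 ≤ G.D) (x : Fin G.N) (e : Fin G.N × Fin G.d) :
    |dfun G x e.1 - dfun G x (G.ω e)| ≤ 1 := by
  have h1 := dfun_step G hD x e.1 (G.ω e) (fun t ht => by
    rw [bll]
    apply Finset.mem_union_right
    apply Finset.mem_union_left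
    exact Finset.mem_image_of_mem _ (Finset.mem_filter.2 ⟨mem_univ _, ht⟩))
  have h2 := dfun_step G hD x (G.ω e) e.1 (fun t ht => by
    rw [bll]
    apply Finset.mem_union_right
    apply Finset.mem_union_right
    exact Finset.mem_image_of_mem Prod.fst (Finset.mem_filter.2 ⟨mem_univ e, ht⟩))
  rw [abs_le]
  constructor <;> linarith

theorem dfun_self (G : GData) (x : Fin G.N) : dfun G x x = 0 := by
  unfold dfun
  apply Finset.sum_eq_zero
  intro t _
  have : x ∈ bll G x t := bll_mono G x (Nat.zero_le t) (by simp [bll])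
  rw [if_pos this]

theorem dfun_far (G : GData) (x z : Fin G.N) (h : z ∉ bll G x G.D) : dfun G x z = G.D := by
  unfold dfun
  rw [Finset.sum_congr rfl (g := fun _ => (1:ℝ))]
  · simp
  · intro t ht
    rw [if_neg]
    intro hz
    exact h (bll_mono G x (Finset.mem_range.1 ht).le hz)

/-- average distance is large -/
theorem dist_large (G : GData) (hG : G.Good) :
    (G.D : ℝ) * G.N ^ 2 / 2 ≤ ∑ x, ∑ y, ‖de G x y‖ := by
  have h1 : ∀ x, (G.D : ℝ) * G.N / 2 ≤ ∑ y, ‖de G x y‖ := by
    intro x
    have h2 : ∀ y, (if y ∈ bll G x G.D then (0:ℝ) else G.D) ≤ ‖de G x y‖ := by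
      intro y
      split_ifs with hy
      · exact norm_nonneg _
      · have h3 := de_norm_ge G hG.hD (dfun G x) (dfun_edge G hG.hD x) (fun z z' => by
          rw [abs_le]
          have := dfun_nonneg G x z
          have := dfun_nonneg G x z'
          have := dfun_le G x z
          have := dfun_le G x z'
          constructor <;> linarith) x y
        rw [dfun_self, dfun_far G x y hy, zero_sub, abs_neg, Nat.abs_cast] at h3
        exact h3
    refine le_trans ?_ (Finset.sum_le_sum (fun y _ => h2 y))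
    have h4 : ∑ y, (if y ∈ bll G x G.D then (0:ℝ) else G.D) =
        (G.D : ℝ) * (G.N - (bll G x G.D).card) := by
      have : ∀ y, (if y ∈ bll G x G.D then (0:ℝ) else G.D) =
          G.D - (if y ∈ bll G x G.D then (G.D:ℝ) else 0) := by
        intro y; split_ifs <;> simp
      simp only [this]
      rw [Finset.sum_sub_distrib, Finset.sum_const, card_univ, Fintype.card_fin, nsmul_eq_mul,
        Finset.sum_ite_mem, Finset.univ_inter, Finset.sum_const, nsmul_eq_mul]
      ring
    rw [h4]
    have h5 : 2 * (bll G x G.D).card ≤ G.N :=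
      (Nat.mul_le_mul_left 2 (bll_card G hG x G.D)).trans hG.size
    have h6 : 2 * ((bll G x G.D).card : ℝ) ≤ G.N := by exact_mod_cast h5
    have h7 : (0:ℝ) ≤ G.D := by positivity
    nlinarith
  calc (G.D : ℝ) * G.N ^ 2 / 2 = ∑ x : Fin G.N, (G.D : ℝ) * G.N / 2 := by
        rw [Finset.sum_const, card_univ, Fintype.card_fin, nsmul_eq_mul]; ring
    _ ≤ _ := Finset.sum_le_sum (fun x _ => h1 x)

end Pool.Agent.Work.MP_8329b3_an
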