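import Mathlib
import Pool.Agent.Work.MP_8329b3_an.Dist

set_option autoImplicit false

open Finset

namespace Pool.Agent.Work.MP_8329b3_an

theorem lp1_hasSum {E : ℕ → Type} [∀ i, NormedAddCommGroup (E i)] (f : lp E 1) :
    HasSum (fun i => ‖f i‖) ‖f‖ := by
  have := lp.hasSum_norm (p := 1) (by simp) f
  simpa using this

theorem no_iso_abs (G : ℕ → GData) (hG : ∀ n, (G n).Good)
    (hcov : ∀ m n, m < n → CovOK (G m) (G n)) (hD : ∀ n, n ≤ (G n).D)
    {X Y : Type} [NormedAddCommGroup X] [NormedSpace ℝ X] [NormedAddCommGroup Y] [NormedSpace ℝ Y]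
    (ev : ∀ k, X →L[ℝ] FS (G k)) (sg : ∀ k, FS (G k) →L[ℝ] X)
    (evX : ℕ → Y →L[ℝ] X) (sgX : ℕ → X →L[ℝ] Y)
    (hsumJ : ∀ w : X, HasSum (fun k => ‖ev k w‖) ‖w‖)
    (hsumS : ∀ w : X, HasSum (fun k => sg k (ev k w)) w)
    (hsgn : ∀ k (v : FS (G k)), ‖sg k v‖ = ‖v‖)
    (hevsg : ∀ k (v : FS (G k)), ev k (sg k v) = v)
    (hsumY : ∀ w : Y, HasSum (fun k => ‖evX k w‖) ‖w‖)
    (hsgXn : ∀ k (w : X), ‖sgX k w‖ = ‖w‖)
    (hevsgX : ∀ k (w : X), evX k (sgX k w) = w)
    (Φ' : X →L[ℝ] Y) (Ψ' : Y →L[ℝ] X) (hΦΨ : ∀ y, Φ' (Ψ' y) = y) : False := by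
  set K1 := ‖Φ'‖ with hK1
  set K2 := ‖Ψ'‖ with hK2
  have hK1n : 0 ≤ K1 := norm_nonneg _
  have hK2n : 0 ≤ K2 := norm_nonneg _
  obtain ⟨n, hn⟩ := exists_nat_gt (76800 * (K1 * K2))
  set D : ℝ := (((G n).D : ℕ) : ℝ) with hDdef
  have hDn : 76800 * (K1 * K2) < D := hn.trans_le (by rw [hDdef]; exact_mod_cast hD n)
  have hDpos : 0 < D := lt_of_le_of_lt (by positivity) hDn
  have hNpos : (0:ℝ) < (G n).N := by exact_mod_cast (hG n).hN
  have hdpos : (0:ℝ) < (G n).d := by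
    have := (hG n).hd
    have : 0 < (G n).d := by omega
    exact_mod_cast this
  let Q : ℕ → X →L[ℝ] FS (G n) := fun i => (ev n).comp ((evX i).comp Φ')
  let J : ℕ → FS (G n) →L[ℝ] X := fun i => Ψ'.comp ((sgX i).comp (sg n))
  have hevn : ∀ k (w : X), ‖ev k w‖ ≤ ‖w‖ := fun k w =>
    le_hasSum (hsumJ w) k (fun _ _ => norm_nonneg _)
  have hevXn : ∀ k (w : Y), ‖evX k w‖ ≤ ‖w‖ := fun k w =>
    le_hasSum (hsumY w) k (fun _ _ => norm_nonneg _)
  have hQJ : ∀ i v, Q i (J i v) = v := by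
    intro i v
    change ev n (evX i (Φ' (Ψ' (sgX i (sg n v))))) = v
    rw [hΦΨ, hevsgX, hevsg]
  have hQn : ∀ i w, ‖Q i w‖ ≤ K1 * ‖w‖ := by
    intro i w
    exact (hevn _ _).trans ((hevXn _ _).trans (Φ'.le_opNorm w))
  have hJn : ∀ i v, ‖J i v‖ ≤ K2 * ‖v‖ := by
    intro i v
    change ‖Ψ' (sgX i (sg n v))‖ ≤ _
    refine (Ψ'.le_opNorm _).trans ?_
    rw [hsgXn, hsgn]
  -- pointwise convergence of Q i to zero
  have hQ0 : ∀ w, Filter.Tendsto (fun i => ‖Q i w‖) Filter.atTop (nhds 0) := by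
    intro w
    have h1 := (hsumY (Φ' w)).summable.tendsto_atTop_zero
    refine squeeze_zero (fun i => norm_nonneg _) (fun i => ?_) h1
    exact hevn n _
  -- norm convergence on heads
  have hhead : ∀ k, ∀ ε > 0, ∀ᶠ i in Filter.atTop, ‖(Q i).comp (sg k)‖ ≤ ε := by
    intro k ε hε
    obtain ⟨C, hC, hC'⟩ := (Module.finBasis ℝ (FS (G k))).exists_opNorm_le (F := FS (G n))
    have h1 : ∀ᶠ i in Filter.atTop, ∀ j, ‖(Q i).comp (sg k) (Module.finBasis ℝ (FS (G k)) j)‖ ≤ ε / C := by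
      rw [Filter.eventually_all]
      intro j
      have h2 := hQ0 (sg k (Module.finBasis ℝ (FS (G k)) j))
      have h3 := h2.eventually (gt_mem_nhds (show (0:ℝ) < ε / C by positivity))
      filter_upwards [h3] with i hi
      exact hi.le
    filter_upwards [h1] with i hi
    have := hC' (by positivity) hi
    rwa [mul_div_cancel₀ _ hC.ne'] at this
  set ε : ℝ := 1 / (4 * (n + 1) * (K2 + 1)) with hε
  have hεpos : 0 < ε := by positivity
  have hall : ∀ᶠ i in Filter.atTop, ∀ k ∈ range (n+1), ‖(Q i).comp (sg k)‖ ≤ ε := by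
    rw [Filter.eventually_all_finset]
    intro k _
    exact hhead k ε hεpos
  obtain ⟨i, hi⟩ := hall.exists
  -- the quantities q k x y
  let q : ℕ → Fin (G n).N → Fin (G n).N → ℝ := fun k x y =>
    ‖Q i (sg k (ev k (J i (de (G n) x y))))‖
  have hqle : ∀ k x y, q k x y ≤ K1 * ‖ev k (J i (de (G n) x y))‖ := by
    intro k x y
    refine (hQn _ _).trans ?_
    rw [hsgn]
  have hqsum : ∀ x y, Summable (fun k => q k x y) := by
    intro x y
    refine Summable.of_nonneg_of_le (fun k => norm_nonneg _) (fun k => hqle k x y) ?_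
    exact ((hsumJ (J i (de (G n) x y))).summable).mul_left K1
  have hde : ∀ x y, ‖de (G n) x y‖ ≤ ∑ k ∈ range (n+1), q k x y + ∑' k, q (k + (n+1)) x y := by
    intro x y
    rw [(hqsum x y).sum_add_tsum_nat_add (n+1)]
    have h1 : HasSum (fun k => sg k (ev k (J i (de (G n) x y)))) (J i (de (G n) x y)) :=
      hsumS _
    have h2 : HasSum (fun k => Q i (sg k (ev k (J i (de (G n) x y))))) (Q i (J i (de (G n) x y))) :=
      h1.mapL (Q i)
    rw [hQJ] at h2
    rw [← h2.tsum_eq]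
    exact norm_tsum_le_tsum_norm (hqsum x y)
  -- head estimate
  have hheadest : ∀ x y, ∑ k ∈ range (n+1), q k x y ≤ D / 4 := by
    intro x y
    have h1 : ∀ k ∈ range (n+1), q k x y ≤ ε * (K2 * D) := by
      intro k hk
      have h2 : q k x y ≤ ‖(Q i).comp (sg k)‖ * ‖ev k (J i (de (G n) x y))‖ :=
        ((Q i).comp (sg k)).le_opNorm _
      have h3 : ‖ev k (J i (de (G n) x y))‖ ≤ K2 * D :=
        (hevn _ _).trans ((hJn _ _).trans (mul_le_mul_of_nonneg_left (de_norm_le _ _ _) hK2n))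
      exact h2.trans (mul_le_mul (hi k hk) h3 (norm_nonneg _) hεpos.le)
    refine (Finset.sum_le_sum h1).trans ?_
    rw [Finset.sum_const, card_range, nsmul_eq_mul, hε]
    push_cast
    have h4 : ((n:ℝ) + 1) * (1 / (4 * (n + 1) * (K2 + 1)) * (K2 * D)) = (K2 / (K2 + 1)) * (D / 4) := by
      field_simp
    rw [h4]
    have h5 : K2 / (K2 + 1) ≤ 1 := by
      rw [div_le_one (by positivity)]; linarith
    have h6 : 0 ≤ D / 4 := by positivity
    nlinarith
  -- tail estimate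
  have htail : ∀ k, ((G n).d : ℝ) * ∑ x, ∑ y, q (k + (n+1)) x y ≤
      19200 * K1 * (G n).N * ∑ e : Fin (G n).N × Fin (G n).d,
        ‖ev (k + (n+1)) (J i (de (G n) e.1 ((G n).ω e)))‖ := by
    intro k
    have h1 := key_ineq (G n) (G (k + (n+1))) (hG n) (hG _) (hcov _ _ (by omega))
      ((Q i).comp (sg (k + (n+1)))) ((ev (k + (n+1))).comp (J i))
    have h2 : ‖(Q i).comp (sg (k + (n+1)))‖ ≤ K1 := by
      apply ContinuousLinearMap.opNorm_le_bound _ hK1n
      intro z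
      change ‖Q i (sg (k + (n+1)) z)‖ ≤ K1 * ‖z‖
      refine (hQn _ _).trans ?_
      rw [hsgn]
    refine h1.trans ?_
    have h3 : (0:ℝ) ≤ ∑ e : Fin (G n).N × Fin (G n).d,
        ‖ev (k + (n+1)) (J i (de (G n) e.1 ((G n).ω e)))‖ :=
      Finset.sum_nonneg (fun _ _ => norm_nonneg _)
    have h4 : ∑ e : Fin (G n).N × Fin (G n).d,
        ‖((ev (k + (n+1))).comp (J i)) (de (G n) e.1 ((G n).ω e))‖ = ∑ e : Fin (G n).N × Fin (G n).d,
        ‖ev (k + (n+1)) (J i (de (G n) e.1 ((G n).ω e)))‖ := rfl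
    rw [h4]
    apply mul_le_mul_of_nonneg_right _ h3
    apply mul_le_mul_of_nonneg_right _ hNpos.le
    linarith
  -- sum of tails
  have hsum1 : Summable (fun k => ((G n).d : ℝ) * ∑ x, ∑ y, q (k + (n+1)) x y) := by
    apply Summable.mul_left
    apply summable_sum
    intro x _
    apply summable_sum
    intro y _
    exact (summable_nat_add_iff (n+1)).2 (hqsum x y)
  have hJsum : ∀ v : X, Summable (fun k => ‖ev (k + (n+1)) v‖) := fun v =>
    (summable_nat_add_iff (n+1) (f := fun k => ‖ev k v‖)).2 (hsumJ v).summable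
  have hJle : ∀ v : X, ∑' k, ‖ev (k + (n+1)) v‖ ≤ ‖v‖ := by
    intro v
    have h1 := (hsumJ v).summable.sum_add_tsum_nat_add (n+1)
    rw [(hsumJ v).tsum_eq] at h1
    have h2 : 0 ≤ ∑ k ∈ range (n+1), ‖ev k v‖ := Finset.sum_nonneg (fun _ _ => norm_nonneg _)
    linarith
  have hsum2 : Summable (fun k => 19200 * K1 * (G n).N * ∑ e : Fin (G n).N × Fin (G n).d,
        ‖ev (k + (n+1)) (J i (de (G n) e.1 ((G n).ω e)))‖) := by
    apply Summable.mul_left
    apply summable_sum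
    intro e _
    exact hJsum _
  have htailsum : ((G n).d : ℝ) * ∑ x, ∑ y, ∑' k, q (k + (n+1)) x y ≤
      19200 * K1 * (G n).N * ((G n).N * (G n).d * K2) := by
    have h1 : ((G n).d : ℝ) * ∑ x, ∑ y, ∑' k, q (k + (n+1)) x y
        = ∑' k, ((G n).d : ℝ) * ∑ x, ∑ y, q (k + (n+1)) x y := by
      rw [tsum_mul_left, Summable.tsum_finsetSum]
      · congr 1
        apply Finset.sum_congr rfl
        intro x _
        rw [Summable.tsum_finsetSum]
        intro y _
        exact (summable_nat_add_iff (n+1)).2 (hqsum x y)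
      · intro x _
        apply summable_sum
        intro y _
        exact (summable_nat_add_iff (n+1)).2 (hqsum x y)
    rw [h1]
    refine (hsum1.tsum_le_tsum htail hsum2).trans ?_
    rw [tsum_mul_left, Summable.tsum_finsetSum (fun e _ => hJsum _)]
    apply mul_le_mul_of_nonneg_left _ (by positivity)
    calc ∑ e : Fin (G n).N × Fin (G n).d, ∑' k, ‖ev (k + (n+1)) (J i (de (G n) e.1 ((G n).ω e)))‖
        ≤ ∑ e : Fin (G n).N × Fin (G n).d, K2 := by
          refine Finset.sum_le_sum (fun e _ => ?_)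
          refine (hJle _).trans ((hJn _ _).trans ?_)
          have := de_edge_norm_le (G n) (hG n).hD e
          nlinarith
      _ = (G n).N * (G n).d * K2 := by
          rw [Finset.sum_const, card_univ, Fintype.card_prod, Fintype.card_fin, Fintype.card_fin,
            nsmul_eq_mul]
          push_cast; ring
  -- conclusion
  have hfinal : ((G n).d : ℝ) * (D * (G n).N ^ 2 / 2) ≤
      (G n).d * ((G n).N ^ 2 * (D / 4)) + 19200 * K1 * (G n).N * ((G n).N * (G n).d * K2) := by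
    have h1 := dist_large (G n) (hG n)
    have h2 : ∑ x, ∑ y, ‖de (G n) x y‖ ≤ (G n).N ^ 2 * (D / 4) + ∑ x, ∑ y, ∑' k, q (k + (n+1)) x y := by
      have h3 : ∑ x, ∑ y, ‖de (G n) x y‖ ≤ ∑ x : Fin (G n).N, ∑ y : Fin (G n).N,
          (D / 4 + ∑' k, q (k + (n+1)) x y) :=
        Finset.sum_le_sum (fun x _ => Finset.sum_le_sum (fun y _ =>
          (hde x y).trans (add_le_add (hheadest x y) le_rfl)))
      refine h3.trans (le_of_eq ?_)
      simp only [Finset.sum_add_distrib, Finset.sum_const, card_univ, Fintype.card_fin, nsmul_eq_mul]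
      ring
    have h4 : ((G n).d : ℝ) * (D * (G n).N ^ 2 / 2) ≤ (G n).d * ∑ x, ∑ y, ‖de (G n) x y‖ :=
      mul_le_mul_of_nonneg_left h1 hdpos.le
    have h5 : ((G n).d : ℝ) * ∑ x, ∑ y, ‖de (G n) x y‖ ≤ (G n).d * ((G n).N ^ 2 * (D / 4)) +
        (G n).d * ∑ x, ∑ y, ∑' k, q (k + (n+1)) x y := by
      rw [← mul_add]
      exact mul_le_mul_of_nonneg_left h2 hdpos.le
    linarith
  have hpos2 : (0:ℝ) < (G n).d * (G n).N ^ 2 := by positivity
  have h7 : ((G n).d * (G n).N ^ 2 : ℝ) * D ≤ ((G n).d * (G n).N ^ 2 : ℝ) * (76800 * (K1 * K2)) := by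
    nlinarith [hfinal]
  have h8 := le_of_mul_le_mul_left h7 hpos2
  linarith

theorem no_iso (G : ℕ → GData) (hG : ∀ n, (G n).Good) (hcov : ∀ m n, m < n → CovOK (G m) (G n))
    (hD : ∀ n, n ≤ (G n).D) :
    ¬ Nonempty ((lp (fun n => FS (G n)) 1) ≃L[ℝ] lp (fun _ : ℕ => lp (fun n => FS (G n)) 1) 1) := by
  rintro ⟨Φ⟩
  exact no_iso_abs G hG hcov hD
    (fun k => lp.evalCLM ℝ (fun n => FS (G n)) 1 k)
    (fun k => lp.singleContinuousLinearMap ℝ (fun n => FS (G n)) 1 k)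
    (fun i => lp.evalCLM ℝ (fun _ : ℕ => lp (fun n => FS (G n)) 1) 1 i)
    (fun i => lp.singleContinuousLinearMap ℝ (fun _ : ℕ => lp (fun n => FS (G n)) 1) 1 i)
    (fun w => lp1_hasSum w)
    (fun w => lp.hasSum_single (p := 1) ENNReal.one_ne_top w)
    (fun k v => lp.norm_single (E := fun n => FS (G n)) (p := 1) one_pos k v)
    (fun k v => lp.single_apply_self (E := fun n => FS (G n)) 1 k v)
    (fun w => lp1_hasSum w)
    (fun k v => lp.norm_single (E := fun _ : ℕ => lp (fun n => FS (G n)) 1) (p := 1) one_pos k v)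
    (fun k v => lp.single_apply_self (E := fun _ : ℕ => lp (fun n => FS (G n)) 1) 1 k v)
    Φ.toContinuousLinearMap Φ.symm.toContinuousLinearMap (fun y => Φ.apply_symm_apply y)

end Pool.Agent.Work.MP_8329b3_an
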