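import Mathlib
import Pool.Agent.Work.MP_8329b3_an.Exists
import Pool.Agent.Work.MP_8329b3_an.NoIso

set_option autoImplicit false

open Finset

namespace Pool.Agent.Work.MP_8329b3_an

theorem exists_cover (G : GData) (R : ℝ) :
    ∃ T0 : Finset (FS G), ∀ v : FS G, ‖v‖ ≤ R → ∃ c ∈ T0, ‖v - c‖ ≤ 1 := by
  classical
  haveI : ProperSpace (FS G) := FiniteDimensional.proper_real _
  obtain ⟨t, _, htfin, ht⟩ := (isCompact_closedBall (0 : FS G) R).finite_cover_balls
    (show (0:ℝ) < 1 by norm_num)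
  refine ⟨htfin.toFinset, fun v hv => ?_⟩
  have h1 : v ∈ Metric.closedBall (0 : FS G) R := by rwa [mem_closedBall_zero_iff]
  obtain ⟨c, hc, hvc⟩ := Set.mem_iUnion₂.1 (ht h1)
  refine ⟨c, htfin.mem_toFinset.2 hc, ?_⟩
  rw [← dist_eq_norm]
  exact (Metric.mem_ball.1 hvc).le

theorem exists_seq : ∃ G : ℕ → GData, (∀ n, (G n).Good) ∧ (∀ m n, m < n → CovOK (G m) (G n)) ∧
    (∀ n, n ≤ (G n).D) := by
  classical
  obtain ⟨G, hG, hr⟩ := exists_seq_of_forall_finset_exists (fun G : GData => G.Good)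
    (fun x y => CovOK x y ∧ x.D < y.D) (by
      intro s _
      set D : ℕ := s.sup (fun x => x.D) + 1 with hD
      choose T hT using fun x : GData => exists_cover x D
      obtain ⟨G, hG, hGD, hGd⟩ := exists_good_large D (s.sup (fun x => 4 * (T x).card)) (by omega)
      refine ⟨G, hG, fun x hx => ⟨⟨T x, ?_, ?_⟩, ?_⟩⟩
      · rw [hGD]; exact hT x
      · exact (Finset.le_sup (f := fun x => 4 * (T x).card) hx).trans hGd
      · rw [hGD, hD]
        have := Finset.le_sup (f := fun x : GData => x.D) hx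
        change x.D ≤ _ at this
        omega)
  refine ⟨G, hG, fun m n h => (hr m n h).1, fun n => ?_⟩
  induction n with
  | zero => exact Nat.zero_le _
  | succ n ih =>
    have := (hr n (n+1) (Nat.lt_succ_self n)).2
    omega

section final
variable (G : ℕ → GData) (hG : ∀ n, (G n).Good)

/-- The ambient Banach space -/
abbrev XX : Type := lp (fun n => FS (G n)) 1

/-- base vertex -/
def bv (n : ℕ) : Fin (G n).N := ⟨0, (hG n).hN⟩

/-- The points of the metric space -/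
noncomputable def pt (p : Σ n, Fin (G n).N) : XX G :=
  lp.single 1 p.1 (de (G p.1) p.2 (bv G hG p.1))

theorem pt_base (n : ℕ) : pt G hG ⟨n, bv G hG n⟩ = 0 := by
  unfold pt
  simp only
  rw [de_self (G n) (hG n).hD, lp.single_zero]

theorem pt_sub_norm (n : ℕ) (x y : Fin (G n).N) :
    ‖pt G hG ⟨n, x⟩ - pt G hG ⟨n, y⟩‖ = ‖de (G n) x y‖ := by
  unfold pt
  simp only
  rw [← lp.single_sub, de_sub (G n) (hG n).hD]
  exact lp.norm_single (E := fun n => FS (G n)) (p := 1) one_pos n _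

/-- the underlying set of the metric space -/
def SS : Set (XX G) := Set.range (pt G hG)

theorem zero_mem : (0 : XX G) ∈ SS G hG := ⟨⟨0, bv G hG 0⟩, pt_base G hG 0⟩

theorem exists_ne (n : ℕ) : ∃ x, de (G n) x (bv G hG n) ≠ 0 := by
  by_contra hcon
  push Not at hcon
  have h1 := dist_large (G n) (hG n)
  have h2 : ∑ x, ∑ y, ‖de (G n) x y‖ = 0 := by
    apply Finset.sum_eq_zero
    intro x _
    apply Finset.sum_eq_zero
    intro y _
    rw [← de_sub (G n) (hG n).hD x y (bv G hG n), hcon, hcon, sub_zero, norm_zero]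
  rw [h2] at h1
  have h3 : (0:ℝ) < (G n).D := by
    have := (hG n).hD
    exact_mod_cast this
  have h4 : (0:ℝ) < (G n).N := by exact_mod_cast (hG n).hN
  have : 0 < ((G n).D : ℝ) * ((G n).N : ℝ) ^ 2 / 2 := by positivity
  linarith

theorem SS_infinite : Infinite (SS G hG) := by
  choose x hx using exists_ne G hG
  apply Infinite.of_injective (fun n : ℕ => (⟨pt G hG ⟨n, x n⟩, ⟨n, x n⟩, rfl⟩ : SS G hG))
  intro m n hmn
  have h1 : pt G hG ⟨m, x m⟩ = pt G hG ⟨n, x n⟩ := congrArg Subtype.val hmn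
  by_contra hne
  have h2 : (pt G hG ⟨m, x m⟩ : ∀ k, FS (G k)) m = (pt G hG ⟨n, x n⟩ : ∀ k, FS (G k)) m := by rw [h1]
  have h3 : (pt G hG ⟨m, x m⟩ : ∀ k, FS (G k)) m = de (G m) (x m) (bv G hG m) :=
    lp.single_apply_self (E := fun n => FS (G n)) 1 m _
  have h4 : (pt G hG ⟨n, x n⟩ : ∀ k, FS (G k)) m = 0 :=
    lp.single_apply_ne (E := fun n => FS (G n)) 1 n _ hne
  rw [h3, h4] at h2
  exact hx m h2

theorem SS_dense : Dense ((Submodule.span ℝ (Set.range (Subtype.val : SS G hG → XX G)) :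
    Submodule ℝ (XX G)) : Set (XX G)) := by
  rw [Subtype.range_coe]
  set P := Submodule.span ℝ (SS G hG) with hP
  -- singles are in the span
  have hsingle : ∀ n (v : FS (G n)), lp.single 1 n v ∈ P := by
    intro n v
    have hv : v ∈ Submodule.span ℝ (Set.range (fun p : Fin (G n).N × Fin (G n).N => de (G n) p.1 p.2)) := by
      rw [de_span]; trivial
    have hmap : (Submodule.span ℝ (Set.range (fun p : Fin (G n).N × Fin (G n).N =>
        de (G n) p.1 p.2))).map (lp.singleContinuousLinearMap ℝ (fun n => FS (G n)) 1 n).toLinearMap ≤ P := by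
      rw [Submodule.map_span_le]
      rintro z ⟨p, rfl⟩
      have h1 : (lp.singleContinuousLinearMap ℝ (fun n => FS (G n)) 1 n).toLinearMap
          (de (G n) p.1 p.2) = pt G hG ⟨n, p.1⟩ - pt G hG ⟨n, p.2⟩ := by
        unfold pt
        simp only
        rw [← lp.single_sub, de_sub (G n) (hG n).hD]
        rfl
      simp only
      rw [h1]
      exact P.sub_mem (Submodule.subset_span ⟨_, rfl⟩) (Submodule.subset_span ⟨_, rfl⟩)
    exact hmap (Submodule.mem_map_of_mem hv)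
  intro w
  have h1 : HasSum (fun k => lp.single (E := fun n => FS (G n)) 1 k ((w : ∀ k, FS (G k)) k)) w :=
    lp.hasSum_single (p := 1) ENNReal.one_ne_top w
  apply mem_closure_of_tendsto h1
  filter_upwards with s
  exact P.sum_mem (fun k _ => hsingle k _)

theorem SS_ext (f : SS G hG → ℝ) (L : NNReal) (hf : LipschitzWith L f)
    (hf0 : f ⟨0, zero_mem G hG⟩ = 0) :
    ∃ φ : XX G →L[ℝ] ℝ, ‖φ‖ ≤ (L : ℝ) ∧ ∀ x : SS G hG, φ (x : XX G) = f x := by
  have hφ : ∀ n, ∃ φ : FS (G n) →L[ℝ] ℝ, ‖φ‖ ≤ (L:ℝ) ∧ ∀ x y, φ (de (G n) x y) =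
      f ⟨pt G hG ⟨n, x⟩, ⟨n, x⟩, rfl⟩ - f ⟨pt G hG ⟨n, y⟩, ⟨n, y⟩, rfl⟩ := by
    intro n
    have hl : ∀ x y : Fin (G n).N, |f ⟨pt G hG ⟨n, x⟩, ⟨n, x⟩, rfl⟩ - f ⟨pt G hG ⟨n, y⟩, ⟨n, y⟩, rfl⟩|
        ≤ L * ‖de (G n) x y‖ := by
      intro x y
      have h1 := hf.dist_le_mul ⟨pt G hG ⟨n, x⟩, ⟨n, x⟩, rfl⟩ ⟨pt G hG ⟨n, y⟩, ⟨n, y⟩, rfl⟩
      rw [Real.dist_eq] at h1
      refine h1.trans (le_of_eq ?_)
      rw [Subtype.dist_eq, dist_eq_norm, pt_sub_norm]
    apply univ_prop (G n) (hG n).hD (fun x => f ⟨pt G hG ⟨n, x⟩, ⟨n, x⟩, rfl⟩) L L.2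
    · intro e
      refine (hl _ _).trans ?_
      have := de_edge_norm_le (G n) (hG n).hD e
      have hL : (0:ℝ) ≤ L := L.2
      nlinarith
    · intro x y
      exact (hl _ _).trans (mul_le_mul_of_nonneg_left (de_norm_le _ _ _) L.2)
  choose φ hφ1 hφ2 using hφ
  have hL : (0:ℝ) ≤ L := L.2
  have hbound : ∀ (w : XX G) n, ‖φ n ((w : ∀ k, FS (G k)) n)‖ ≤ L * ‖(w : ∀ k, FS (G k)) n‖ := by
    intro w n
    exact ((φ n).le_opNorm _).trans (mul_le_mul_of_nonneg_right (hφ1 n) (norm_nonneg _))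
  have hsn : ∀ w : XX G, HasSum (fun n => ‖(w : ∀ k, FS (G k)) n‖) ‖w‖ := fun w => lp1_hasSum w
  have hsum : ∀ w : XX G, Summable (fun n => φ n ((w : ∀ k, FS (G k)) n)) := by
    intro w
    apply Summable.of_norm
    exact Summable.of_nonneg_of_le (fun _ => norm_nonneg _) (hbound w) ((hsn w).summable.mul_left _)
  let Φ : XX G →ₗ[ℝ] ℝ :=
    { toFun := fun w => ∑' n, φ n ((w : ∀ k, FS (G k)) n)
      map_add' := by
        intro w w'
        rw [← (hsum w).tsum_add (hsum w')]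
        congr 1
        ext n
        rw [← map_add]
        rfl
      map_smul' := by
        intro c w
        rw [RingHom.id_apply, smul_eq_mul, ← tsum_mul_left]
        congr 1
        ext n
        rw [← smul_eq_mul, ← map_smul]
        rfl }
  have hΦ : ∀ w, ‖Φ w‖ ≤ L * ‖w‖ := by
    intro w
    change ‖∑' n, φ n ((w : ∀ k, FS (G k)) n)‖ ≤ _
    refine (norm_tsum_le_tsum_norm ?_).trans ?_
    · exact Summable.of_nonneg_of_le (fun _ => norm_nonneg _) (hbound w) ((hsn w).summable.mul_left _)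
    · refine (Summable.tsum_le_tsum (hbound w) ?_ ((hsn w).summable.mul_left _)).trans ?_
      · exact Summable.of_nonneg_of_le (fun _ => norm_nonneg _) (hbound w) ((hsn w).summable.mul_left _)
      · rw [tsum_mul_left, (hsn w).tsum_eq]
  refine ⟨Φ.mkContinuous L hΦ, LinearMap.mkContinuous_norm_le _ hL _, ?_⟩
  rintro ⟨x, ⟨n, x⟩, rfl⟩
  change ∑' k, φ k ((pt G hG ⟨n, x⟩ : ∀ k, FS (G k)) k) = _
  rw [tsum_eq_single n]
  · have h3 : (pt G hG ⟨n, x⟩ : ∀ k, FS (G k)) n = de (G n) x (bv G hG n) :=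
      lp.single_apply_self (E := fun n => FS (G n)) 1 n _
    rw [h3, hφ2]
    have h4 : (⟨pt G hG ⟨n, bv G hG n⟩, ⟨n, bv G hG n⟩, rfl⟩ : SS G hG) = ⟨0, zero_mem G hG⟩ :=
      Subtype.ext (pt_base G hG n)
    rw [h4, hf0, sub_zero]
  · intro k hk
    have h4 : (pt G hG ⟨n, x⟩ : ∀ k, FS (G k)) k = 0 :=
      lp.single_apply_ne (E := fun n => FS (G n)) 1 n _ hk
    rw [h4, map_zero]

end final

end Pool.Agent.Work.MP_8329b3_an
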